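import Pool.Agent.H742Z.GP.Defs

/-!
Basic facts on self-avoiding paths and greedy weights.
-/

set_option autoImplicit false

open scoped ENNReal
open MeasureTheory

namespace Pool.Agent.H742Z.GP

variable {d : ℕ}

lemma Adj.symm {x y : V d} (h : Adj x y) : Adj y x := by
  unfold Adj at *
  rw [← h]
  exact Finset.sum_congr rfl fun i _ => abs_sub_comm _ _

lemma adj_irrefl (x : V d) : ¬ Adj x x := by
  simp [Adj]

lemma Adj.abs_le {x y : V d} (h : Adj x y) (i : Fin d) : |x i - y i| ≤ 1 := by
  unfold Adj at h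
  rw [← h]
  exact Finset.single_le_sum (f := fun i => |x i - y i|) (fun i _ => abs_nonneg _)
    (Finset.mem_univ i)

lemma adj_add (z : V d) {x y : V d} : Adj (x + z) (y + z) ↔ Adj x y := by
  simp [Adj]

lemma mem_ball {x u : V d} {S : ℕ} : u ∈ ball x S ↔ ∀ i, |u i - x i| ≤ S := by
  simp only [ball, Fintype.mem_piFinset, Finset.mem_Icc, abs_le]
  exact forall_congr' fun i => by constructor <;> intro h <;> constructor <;> linarith [h.1, h.2]

lemma card_ball (x : V d) (S : ℕ) : (ball x S).card = (2 * S + 1) ^ d := by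
  simp only [ball, Fintype.card_piFinset, Int.card_Icc]
  have : ∀ i : Fin d, (x i + S + 1 - (x i - S)).toNat = 2 * S + 1 := by
    intro i; omega
  simp [this]

lemma self_mem_ball (x : V d) (S : ℕ) : x ∈ ball x S := by
  simp [mem_ball]

lemma ball_mono (x : V d) {S T : ℕ} (h : S ≤ T) : ball x S ⊆ ball x T := by
  intro u hu
  rw [mem_ball] at *
  intro i
  exact (hu i).trans (by exact_mod_cast h)

lemma chain_mem_ball (x : V d) (l : List (V d)) (h : List.IsChain Adj (x :: l)) :
    ∀ u ∈ l, u ∈ ball x l.length := by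
  induction l generalizing x with
  | nil => simp
  | cons y l ih =>
    rw [List.isChain_cons_cons] at h
    intro u hu
    rw [mem_ball]
    intro i
    have h1 := h.1.abs_le i
    rcases List.mem_cons.1 hu with rfl | hu
    · rw [abs_sub_comm]; simp only [List.length_cons]; push_cast; omega
    · have h2 := mem_ball.1 (ih y h.2 u hu) i
      simp only [List.length_cons]; push_cast
      rw [abs_le] at *
      omega

lemma IsSAW.mem_ball {n : ℕ} {x : V d} {l : List (V d)} (h : IsSAW n x l) :
    ∀ u ∈ l, u ∈ ball x n := by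
  have := chain_mem_ball x l h.2.2
  rwa [h.1] at this

lemma finite_saw (n : ℕ) (x : V d) : {l | IsSAW n x l}.Finite := by
  classical
  have hfin : {l : List (ball x n) | l.length = n}.Finite := List.finite_length_eq _ n
  refine (hfin.image (List.map Subtype.val)).subset ?_
  intro l hl
  refine ⟨l.attachWith _ hl.mem_ball, ?_, ?_⟩
  · simp [hl.1]
  · simp

lemma adj_ray (e : Fin d × Bool) (t : ℕ) : Adj (ray e t) (ray e (t + 1)) := by
  unfold Adj ray
  rw [Finset.sum_eq_single e.1]
  · cases e.2 <;> simp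
  · intro b _ hb; simp [hb]
  · simp

lemma ray_zero (e : Fin d × Bool) : ray e 0 = 0 := by
  unfold ray; cases e.2 <;> simp

lemma ray_inj (e : Fin d × Bool) {s t : ℕ} (h : ray e s = ray e t) : s = t := by
  have := congrFun h e.1
  unfold ray at this
  cases he : e.2 <;> simp [he] at this <;> omega

/-- the straight path -/
lemma isSAW_ray (e : Fin d × Bool) (x : V d) (n : ℕ) :
    IsSAW n x ((List.range n).map fun t => ray e (t + 1) + x) := by
  have hl : (x :: (List.range n).map fun t => ray e (t + 1) + x) =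
      (List.range (n + 1)).map fun t => ray e t + x := by
    rw [List.range_succ_eq_map]
    simp [ray_zero, Function.comp_def]
  refine ⟨by simp, ?_, ?_⟩
  · rw [hl]
    refine List.Nodup.map_on ?_ List.nodup_range
    intro s _ t _ h
    exact ray_inj e (add_right_cancel h)
  · rw [hl, List.isChain_map, List.isChain_range]
    intro m _
    exact (adj_add x).2 (adj_ray e m)

lemma exists_saw (hd : 1 ≤ d) (n : ℕ) (x : V d) : ∃ l, IsSAW n x l :=
  ⟨_, isSAW_ray (⟨0, hd⟩, true) x n⟩

lemma finite_weights (n : ℕ) (x : V d) (w : V d → ℝ) :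
    {s | ∃ l, IsSAW n x l ∧ s = (l.map w).sum}.Finite := by
  refine ((finite_saw n x).image fun l => (l.map w).sum).subset ?_
  rintro s ⟨l, hl, rfl⟩
  exact ⟨l, hl, rfl⟩

lemma le_G {n : ℕ} {x : V d} {l : List (V d)} (h : IsSAW n x l) (w : V d → ℝ) :
    (l.map w).sum ≤ G n x w :=
  le_csSup (finite_weights n x w).bddAbove ⟨l, h, rfl⟩

lemma exists_G (hd : 1 ≤ d) (n : ℕ) (x : V d) (w : V d → ℝ) :
    ∃ l, IsSAW n x l ∧ G n x w = (l.map w).sum := by
  obtain ⟨l, hl⟩ := exists_saw hd n x
  have hne : {s | ∃ l, IsSAW n x l ∧ s = (l.map w).sum}.Nonempty := ⟨_, l, hl, rfl⟩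
  exact hne.csSup_mem (finite_weights n x w)

lemma le_GE {n : ℕ} {x : V d} {l : List (V d)} (h : IsSAW n x l) (w : V d → ℝ≥0∞) :
    (l.map w).sum ≤ GE n x w :=
  le_iSup (fun l : {l : List (V d) // IsSAW n x l} => (l.1.map w).sum) ⟨l, h⟩

lemma GE_le {n : ℕ} {x : V d} {w : V d → ℝ≥0∞} {c : ℝ≥0∞}
    (h : ∀ l, IsSAW n x l → (l.map w).sum ≤ c) : GE n x w ≤ c :=
  iSup_le fun l => h l.1 l.2

lemma measurable_list_sum {Ω : Type*} [MeasurableSpace Ω] {β : Type*} [MeasurableSpace β]
    [AddMonoid β] [MeasurableAdd₂ β] (l : List (V d)) (X : V d → Ω → β)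
    (hX : ∀ v, Measurable (X v)) : Measurable fun ω => (l.map fun v => X v ω).sum := by
  induction l with
  | nil => simp
  | cons a l ih =>
    simp only [List.map_cons, List.sum_cons]
    exact (hX a).add ih

lemma measurable_GE {Ω : Type*} [MeasurableSpace Ω] (n : ℕ) (x : V d) (X : V d → Ω → ℝ≥0∞)
    (hX : ∀ v, Measurable (X v)) : Measurable fun ω => GE n x fun v => X v ω :=
  Measurable.iSup fun l => measurable_list_sum l.1 X hX

lemma measurable_G {Ω : Type*} [MeasurableSpace Ω] (hd : 1 ≤ d) (n : ℕ) (x : V d)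
    (X : V d → Ω → ℝ) (hX : ∀ v, Measurable (X v)) : Measurable fun ω => G n x fun v => X v ω := by
  refine measurable_of_Iic fun c => ?_
  have : (fun ω => G n x fun v => X v ω) ⁻¹' Set.Iic c =
      ⋂ l : {l : List (V d) // IsSAW n x l}, {ω | (l.1.map fun v => X v ω).sum ≤ c} := by
    ext ω
    simp only [Set.mem_preimage, Set.mem_Iic, Set.mem_iInter, Set.mem_ofPred_eq]
    constructor
    · intro h l
      exact (le_G l.2 _).trans h
    · intro h
      obtain ⟨l, hl, e⟩ := exists_G hd n x fun v => X v ω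
      rw [e]
      exact h ⟨l, hl⟩
  rw [this]
  exact MeasurableSet.iInter fun l =>
    measurableSet_le (measurable_list_sum l.1 X hX) measurable_const

lemma G_mono (hd : 1 ≤ d) (n : ℕ) (x : V d) {w w' : V d → ℝ} (h : ∀ v, w v ≤ w' v) :
    G n x w ≤ G n x w' := by
  obtain ⟨l, hl, e⟩ := exists_G hd n x w
  rw [e]
  exact (List.sum_le_sum fun v _ => h v).trans (le_G hl w')

lemma abs_G_le (hd : 1 ≤ d) (n : ℕ) (x : V d) {w : V d → ℝ} {K : ℝ} (h : ∀ v, |w v| ≤ K) :
    |G n x w| ≤ K * n := by
  obtain ⟨l, hl, e⟩ := exists_G hd n x w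
  rw [e, ← hl.1]
  clear hl e
  induction l with
  | nil => simp
  | cons a l ih =>
    simp only [List.map_cons, List.sum_cons, List.length_cons]
    push_cast
    have := abs_add_le (w a) (l.map w).sum
    have := h a
    linarith

lemma IsSAW.add {n : ℕ} {x : V d} {l : List (V d)} (h : IsSAW n x l) (z : V d) :
    IsSAW n (x + z) (l.map (· + z)) := by
  refine ⟨by simp [h.1], ?_, ?_⟩
  · have := h.2.1.map (f := (· + z)) (add_left_injective z)
    simpa using this
  · have : List.IsChain Adj ((x :: l).map (· + z)) := by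
      rw [List.isChain_map]
      exact h.2.2.imp fun a b hab => (adj_add z).2 hab
    simpa using this

/-- translation covariance -/
lemma G_shift (n : ℕ) (x : V d) (w : V d → ℝ) : G n x w = G n 0 fun v => w (v + x) := by
  unfold G
  congr 1
  ext s
  constructor
  · rintro ⟨l, hl, rfl⟩
    refine ⟨l.map (· + -x), by simpa using hl.add (-x), ?_⟩
    simp [Function.comp_def]
  · rintro ⟨l, hl, rfl⟩
    refine ⟨l.map (· + x), by simpa using hl.add x, ?_⟩
    simp [Function.comp_def]

lemma IsSAW.take {n m : ℕ} {x : V d} {l : List (V d)} (h : IsSAW n x l) (hm : m ≤ n) :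
    IsSAW m x (l.take m) := by
  refine ⟨by simp [h.1, hm], ?_, ?_⟩
  · exact h.2.1.sublist ((List.take_sublist m l).cons_cons x)
  · have : (x :: l.take m) = (x :: l).take (m + 1) := by simp
    rw [this]
    exact h.2.2.take _

end Pool.Agent.H742Z.GP
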