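import Mathlib

/-!
Greedy lattice paths with heavy negative tails: basic definitions for the proof in dimension at
least two.
-/

set_option autoImplicit false

open scoped ENNReal

namespace Pool.Agent.H742Z.GP

/-- sites of the lattice -/
abbrev V (d : ℕ) : Type := Fin d → ℤ

/-- nearest neighbours -/
def Adj {d : ℕ} (x y : V d) : Prop := ∑ i, |x i - y i| = 1

/-- `x :: l` is a self-avoiding path with `n` steps -/
def IsSAW {d : ℕ} (n : ℕ) (x : V d) (l : List (V d)) : Prop :=
  l.length = n ∧ (x :: l).Nodup ∧ List.IsChain Adj (x :: l)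

/-- the box of radius `S` around `x` -/
noncomputable def ball {d : ℕ} (x : V d) (S : ℕ) : Finset (V d) :=
  Fintype.piFinset fun i => Finset.Icc (x i - S) (x i + S)

/-- maximal weight of a self-avoiding path with `n` steps from `x` (the start is not counted) -/
noncomputable def G {d : ℕ} (n : ℕ) (x : V d) (w : V d → ℝ) : ℝ :=
  sSup {s | ∃ l, IsSAW n x l ∧ s = (l.map w).sum}

/-- the same for weights in `[0, ∞]` -/
noncomputable def GE {d : ℕ} (n : ℕ) (x : V d) (w : V d → ℝ≥0∞) : ℝ≥0∞ :=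
  ⨆ l : {l : List (V d) // IsSAW n x l}, (l.1.map w).sum

/-- Every self-avoiding path starting outside `Q` can be changed inside `Q` so that inside `Q` it
only uses sites of `U`. -/
def Good {α : Type} (R : α → α → Prop) (Q U : Set α) : Prop :=
  ∀ (x : α) (l : List α), x ∉ Q → (x :: l).Nodup → List.IsChain R (x :: l) →
    ∃ l' : List α, (x :: l').Nodup ∧ List.IsChain R (x :: l') ∧
      (∀ u, u ∉ Q → (u ∈ l' ↔ u ∈ l)) ∧ ∀ u ∈ l', u ∈ Q → u ∈ U

/-- Moves of the relinking scheme. The first set contains all live ends, the second one all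
used sites of `Q` which are not live ends. -/
inductive Mv {α : Type} (R : α → α → Prop) (Q : Set α) : Set α × Set α → Set α × Set α → Prop
  | weak {A B A' B' : Set α} : A ⊆ A' → B ⊆ B' → Mv R Q (A, B) (A', B')
  | move {A B : Set α} {x z : α} : R x z → z ∈ Q → z ∉ A → z ∉ B →
      Mv R Q (A, B) ((A \ {x}) ∪ {z}, B ∪ {x})
  | gad {A B : Set α} {x z₁ z₂ : α} : R x z₁ → R x z₂ → z₁ ≠ z₂ → z₁ ∈ Q → z₂ ∈ Q →
      z₁ ∉ B → z₂ ∉ B → Mv R Q (A, B) ((A \ {x}) ∪ {z₁, z₂}, B ∪ {x, z₁, z₂})

/-- sequences of moves -/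
def Mvs {α : Type} (R : α → α → Prop) (Q : Set α) : Set α × Set α → Set α × Set α → Prop :=
  Relation.ReflTransGen (Mv R Q)

/-- the linear form used to place the gadgets -/
def ell {N : ℕ} (a : Fin N → ℕ) : ℕ := ∑ i, (i.val + 1) * a i

/-- the gadget sites -/
def IsW {N : ℕ} (q : ℕ) (a : Fin N → ℕ) : Prop :=
  ell a % q = 0 ∧ ∃ i k, i ≠ k ∧ 2 ≤ a i ∧ 2 ≤ a k

/-- decrease one coordinate -/
def dec {N : ℕ} (a : Fin N → ℕ) (i : Fin N) : Fin N → ℕ := Function.update a i (a i - 1)

/-- number of sites of the box around `v` with weight below `-k` -/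
noncomputable def cnt {d : ℕ} (S : ℕ) (w : V d → ℝ) (v : V d) (k : ℕ) : ℕ :=
  ((ball v S).filter fun u => w u < -(k : ℝ)).card

/-- the point at distance `t` on the ray with direction `(i, s)` -/
def ray {d : ℕ} (e : Fin d × Bool) (t : ℕ) : V d :=
  Pi.single e.1 (if e.2 then (t : ℤ) else -(t : ℤ))

end Pool.Agent.H742Z.GP
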