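import Pool.Agent.H742Z.GP.Basic

/-!
Further definitions used to split the proof into pieces.
-/

set_option autoImplicit false

open scoped ENNReal
open MeasureTheory ProbabilityTheory

namespace Pool.Agent.H742Z.GP

universe u

/-- truncation of a weight to `[-K, J]` -/
noncomputable def clip (J K x : ℝ) : ℝ := max (-K) (min x J)

open Classical in
/-- number of levels `k ≥ t` at which the box around `v` holds at least `2 d²` sites of weight
below `-k` -/
noncomputable def zt {d : ℕ} (S t : ℕ) (w : V d → ℝ) (v : V d) : ℝ≥0∞ :=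
  ∑' k : ℕ, if 2 * d * d ≤ cnt S w v (k + t) then 1 else 0

open Classical in
/-- number of levels `k` at which each of the `2 d` rays holds a site of weight below `-k` among
its first `S` sites -/
noncomputable def rt {d : ℕ} (S : ℕ) (w : V d → ℝ) : ℝ≥0∞ :=
  ∑' k : ℕ, if (∀ e : Fin d × Bool, ∃ t ∈ Finset.Icc 1 S, w (ray e t) < -(k : ℝ)) then 1 else 0

/-- the greedy bound for independent events -/
def BG (d : ℕ) : Prop :=
  ∃ C : ℝ≥0∞, C ≠ ∞ ∧ ∀ (Ω : Type u) [MeasurableSpace Ω] (P : Measure Ω) (E : V d → Set Ω),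
    (∀ v, MeasurableSet (E v)) → iIndepSet E P → ∀ r : ℝ≥0∞, (∀ v, P (E v) ≤ r ^ d) →
    ∀ n : ℕ, ∫⁻ ω, GE n 0 (fun v => (E v).indicator 1 ω) ∂P ≤ C * n * r

/-- the local surgery property -/
def Surg (d j S : ℕ) : Prop :=
  ∀ (v : V d) (D : Finset (V d)), D.card ≤ j →
    ∃ Q U : Set (V d), Good Adj Q U ∧ v ∈ Q ∧ Q ⊆ ball v S ∧ ∀ u ∈ D, u ∉ U

/-- the matching property of the level sets -/
def SW (N q ρ₀ : ℕ) : Prop :=
  ∀ ρ, ρ₀ ≤ ρ → ∃ ι : (Fin N → ℕ) → Fin N,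
    (∀ a, ∑ i, a i = ρ → ¬ IsW q a → 2 ≤ a (ι a)) ∧
    ∀ a b, ∑ i, a i = ρ → ∑ i, b i = ρ → ¬ IsW q a → ¬ IsW q b →
      dec a (ι a) = dec b (ι b) → a = b

end Pool.Agent.H742Z.GP
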