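import Mathlib

/-!
Greedy lattice paths with heavy negative tails: the counterexample in dimension one (by helper786).
-/

open MeasureTheory ProbabilityTheory Filter Topology Set
open scoped ENNReal

namespace Pool.Agent.H742Z.GP.Line

/-- `v 0, …, v n` is a self-avoiding nearest-neighbour lattice path of length `n` from the
origin of `ℤ^d` (the values of `v` after time `n` play no role). -/
def IsSAPath (d n : ℕ) (v : ℕ → Fin d → ℤ) : Prop :=
  v 0 = 0 ∧ (∀ i < n, ∑ j, |v (i + 1) j - v i j| = 1) ∧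
    ∀ i ≤ n, ∀ j ≤ n, v i = v j → i = j

/-- The set of weights `S(Γ) = ∑_{i=1}^n x(v_i)` of the self-avoiding paths of length `n`. -/
def weights (d n : ℕ) (x : (Fin d → ℤ) → ℝ) : Set ℝ :=
  {s | ∃ v, IsSAPath d n v ∧ s = ∑ i ∈ Finset.range n, x (v (i + 1))}

/-- The greedy lattice path weight `M_n`. -/
noncomputable def greedy (d n : ℕ) (x : (Fin d → ℤ) → ℝ) : ℝ := sSup (weights d n x)

/-- the point `k` of the line -/
def pt (k : ℤ) : Fin 1 → ℤ := fun _ => k

lemma pt_inj {a b : ℤ} (h : pt a = pt b) : a = b := congrFun h 0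

lemma path_pt (n : ℕ) (s : ℤ) (hs : s = 1 ∨ s = -1) : IsSAPath 1 n (fun i => pt (s * i)) := by
  refine ⟨?_, ?_, ?_⟩
  · funext j; simp [pt]
  · intro i _
    rcases hs with rfl | rfl <;> simp [pt]
  · intro i _ j _ h
    have := pt_inj h
    rcases hs with rfl | rfl <;> omega

lemma path_classify {n : ℕ} {v : ℕ → Fin 1 → ℤ} (hv : IsSAPath 1 n v) :
    ∃ s : ℤ, (s = 1 ∨ s = -1) ∧ ∀ i ≤ n, v i = pt (s * i) := by
  obtain ⟨h0, h1, h2⟩ := hv
  have h1' : ∀ i < n, |v (i + 1) 0 - v i 0| = 1 := by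
    intro i hi
    simpa using h1 i hi
  have h00 : v 0 0 = 0 := by rw [h0]; rfl
  have hext : ∀ i (k : ℤ), v i 0 = k → v i = pt k := by
    intro i k h
    funext j
    have : j = 0 := Subsingleton.elim _ _
    subst this
    simpa [pt] using h
  rcases Nat.eq_zero_or_pos n with rfl | hn
  · refine ⟨1, Or.inl rfl, ?_⟩
    intro i hi
    have : i = 0 := by omega
    subst this
    exact hext 0 _ (by simpa using h00)
  have hs : v 1 0 = 1 ∨ v 1 0 = -1 := by
    have := h1' 0 hn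
    rw [zero_add, h00, sub_zero] at this
    rcases abs_eq (by norm_num : (0 : ℤ) ≤ 1) |>.mp this with h | h
    · exact Or.inl h
    · exact Or.inr h
  refine ⟨v 1 0, hs, ?_⟩
  have key : ∀ i, i + 1 ≤ n → v i 0 = v 1 0 * i ∧ v (i + 1) 0 = v 1 0 * ((i + 1 : ℕ) : ℤ) := by
    intro i
    induction i with
    | zero => intro _; simp [h00]
    | succ i ih =>
      intro hi
      obtain ⟨ha, hb⟩ := ih (by omega)
      refine ⟨hb, ?_⟩
      have hstep := h1' (i + 1) (by omega)
      have hne : v (i + 1 + 1) 0 ≠ v i 0 := by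
        intro h
        have h3 : v (i + 1 + 1) = v i := (hext _ _ h).trans (hext i _ rfl).symm
        have := h2 _ hi _ (by omega) h3
        omega
      rw [hb] at hstep
      rw [ha] at hne
      push_cast at hstep hne ⊢
      rcases abs_eq (by norm_num : (0 : ℤ) ≤ 1) |>.mp hstep with h | h <;>
        rcases hs with hs | hs <;> rw [hs] at h hne ⊢ <;> omega
  intro i hi
  rcases Nat.eq_zero_or_pos i with rfl | hi0
  · exact hext 0 _ (by simpa using h00)
  · obtain ⟨k, rfl⟩ : ∃ k, i = k + 1 := ⟨i - 1, by omega⟩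
    exact hext _ _ (key k hi).2

lemma weights_one (n : ℕ) (x : (Fin 1 → ℤ) → ℝ) :
    weights 1 n x = {∑ i ∈ Finset.range n, x (pt (1 * ((i + 1 : ℕ) : ℤ))),
      ∑ i ∈ Finset.range n, x (pt (-1 * ((i + 1 : ℕ) : ℤ)))} := by
  ext s
  constructor
  · rintro ⟨v, hv, rfl⟩
    obtain ⟨s, hs, h⟩ := path_classify hv
    have e : ∑ i ∈ Finset.range n, x (v (i + 1)) =
        ∑ i ∈ Finset.range n, x (pt (s * ((i + 1 : ℕ) : ℤ))) := by
      refine Finset.sum_congr rfl fun i hi => ?_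
      rw [h (i + 1) (by have := Finset.mem_range.mp hi; omega)]
    rw [e]
    rcases hs with rfl | rfl
    · exact Or.inl rfl
    · exact Or.inr rfl
  · rintro (rfl | rfl)
    · exact ⟨_, path_pt n 1 (Or.inl rfl), rfl⟩
    · exact ⟨_, path_pt n (-1) (Or.inr rfl), rfl⟩

/-- the weight as a function of a uniform variable -/
noncomputable def wt (u : ℝ) : ℝ := -(|u| ^ (-(3 / 2) : ℝ))

lemma wt_nonpos (u : ℝ) : wt u ≤ 0 := by
  unfold wt
  have := Real.rpow_nonneg (abs_nonneg u) (-(3 / 2) : ℝ)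
  linarith

lemma measurable_wt : Measurable wt := by
  unfold wt
  fun_prop

/-- uniform measure on `(0,1]` -/
noncomputable def unif : Measure ℝ := volume.restrict (Ioc 0 1)

instance : IsProbabilityMeasure unif := ⟨by simp [unif]⟩

lemma unif_lt_le {t : ℝ} (ht : 0 < t) :
    unif {u | wt u < -t} ≤ ENNReal.ofReal (t ^ (-(2 / 3) : ℝ)) := by
  have hm : MeasurableSet {u | wt u < -t} := measurableSet_lt measurable_wt measurable_const
  unfold unif
  rw [Measure.restrict_apply hm]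
  have : {u | wt u < -t} ∩ Ioc 0 1 ⊆ Ioc 0 (t ^ (-(2 / 3) : ℝ)) := by
    rintro u ⟨hu, hu0, -⟩
    refine ⟨hu0, ?_⟩
    simp only [wt, mem_ofPred_eq, neg_lt_neg_iff, abs_of_pos hu0] at hu
    have h1 := Real.rpow_le_rpow_of_nonpos ht hu.le (by norm_num : (-(2 / 3) : ℝ) ≤ 0)
    rw [← Real.rpow_mul hu0.le] at h1
    norm_num at h1
    simpa using h1
  refine (measure_mono this).trans ?_
  simp

lemma unif_gt_le {t : ℝ} (ht : 1 ≤ t) :
    unif {u | -t < wt u} ≤ ENNReal.ofReal (1 - t ^ (-(2 / 3) : ℝ)) := by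
  have hm : MeasurableSet {u | -t < wt u} := measurableSet_lt measurable_const measurable_wt
  have ht0 : 0 < t := by linarith
  unfold unif
  rw [Measure.restrict_apply hm]
  have : {u | -t < wt u} ∩ Ioc 0 1 ⊆ Icc (t ^ (-(2 / 3) : ℝ)) 1 := by
    rintro u ⟨hu, hu0, hu1⟩
    refine ⟨?_, hu1⟩
    simp only [wt, mem_ofPred_eq, neg_lt_neg_iff, abs_of_pos hu0] at hu
    have h0 : 0 < u ^ (-(3 / 2) : ℝ) := Real.rpow_pos_of_pos hu0 _
    have h1 := Real.rpow_le_rpow_of_nonpos h0 hu.le (by norm_num : (-(2 / 3) : ℝ) ≤ 0)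
    rw [← Real.rpow_mul hu0.le] at h1
    norm_num at h1
    simpa using h1
  refine (measure_mono this).trans ?_
  simp

/-- the product space -/
noncomputable def PP : Measure ((Fin 1 → ℤ) → ℝ) := Measure.infinitePi (fun _ => unif)

instance : IsProbabilityMeasure PP := by unfold PP; infer_instance

/-- all weights on a ray exceed `-t` -/
def rayEv (s : ℤ) (n : ℕ) (t : ℝ) : Set ((Fin 1 → ℤ) → ℝ) :=
  Set.pi (((Finset.range n).image (fun i : ℕ => pt (s * ((i + 1 : ℕ) : ℤ))) : Finset _) : Set _)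
    (fun _ => {u | -t < wt u})

lemma rayEv_meas (s : ℤ) (n : ℕ) (t : ℝ) : MeasurableSet (rayEv s n t) :=
  MeasurableSet.pi (Finset.countable_toSet _)
    (fun _ _ => measurableSet_lt measurable_const measurable_wt)

lemma rayEv_le (s : ℤ) (hs : s = 1 ∨ s = -1) (n : ℕ) {t : ℝ} (ht : 1 ≤ t) :
    PP (rayEv s n t) ≤ ENNReal.ofReal ((1 - t ^ (-(2 / 3) : ℝ)) ^ n) := by
  unfold PP rayEv
  rw [Measure.infinitePi_pi _ (fun _ _ => measurableSet_lt measurable_const measurable_wt),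
    Finset.prod_const, Finset.card_image_of_injective, Finset.card_range]
  · have h1 : t ^ (-(2 / 3) : ℝ) ≤ 1 := Real.rpow_le_one_of_one_le_of_nonpos ht (by norm_num)
    rw [ENNReal.ofReal_pow (by linarith)]
    exact pow_le_pow_left' (unif_gt_le ht) n
  · intro a b h
    have := pt_inj h
    rcases hs with rfl | rfl <;> omega

lemma sum_le_of_not_rayEv {s : ℤ} {n : ℕ} {t : ℝ} {ω : (Fin 1 → ℤ) → ℝ}
    (h : ω ∉ rayEv s n t) :
    ∑ i ∈ Finset.range n, wt (ω (pt (s * ((i + 1 : ℕ) : ℤ)))) ≤ -t := by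
  simp only [rayEv, Set.mem_pi, Finset.coe_image, mem_image, Finset.mem_coe, mem_ofPred_eq,
    forall_exists_index, and_imp, forall_apply_eq_imp_iff₂, not_forall, not_lt] at h
  obtain ⟨i, hi, hle⟩ := h
  rw [← Finset.add_sum_erase _ _ hi]
  have : ∑ j ∈ (Finset.range n).erase i, wt (ω (pt (s * ((j + 1 : ℕ) : ℤ)))) ≤ 0 :=
    Finset.sum_nonpos fun j _ => wt_nonpos _
  linarith

lemma greedy_le {n : ℕ} {t : ℝ} {ω : (Fin 1 → ℤ) → ℝ}
    (h : ω ∉ rayEv 1 n t ∪ rayEv (-1) n t) : greedy 1 n (fun v => wt (ω v)) ≤ -t := by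
  rw [mem_union, not_or] at h
  unfold greedy
  rw [weights_one, csSup_pair]
  exact sup_le (sum_le_of_not_rayEv h.1) (sum_le_of_not_rayEv h.2)

lemma tends_pow {L : ℝ} (hL : 1 ≤ L) :
    Tendsto (fun n : ℕ => (1 - (L * n) ^ (-(2 / 3) : ℝ)) ^ n) atTop (𝓝 0) := by
  have hL0 : 0 < L := by linarith
  have h1 : Tendsto (fun n : ℕ => L ^ (-(2 / 3) : ℝ) * (n : ℝ) ^ (1 / 3 : ℝ)) atTop atTop :=
    Tendsto.const_mul_atTop (Real.rpow_pos_of_pos hL0 _)
      ((tendsto_rpow_atTop (by norm_num)).comp tendsto_natCast_atTop_atTop)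
  have h2 := Real.tendsto_exp_neg_atTop_nhds_zero.comp h1
  refine tendsto_of_tendsto_of_tendsto_of_le_of_le' tendsto_const_nhds h2 ?_ ?_
  · filter_upwards [eventually_ge_atTop 1] with n hn
    have hn' : (1 : ℝ) ≤ n := by exact_mod_cast hn
    have : (L * n) ^ (-(2 / 3) : ℝ) ≤ 1 :=
      Real.rpow_le_one_of_one_le_of_nonpos (by nlinarith) (by norm_num)
    exact pow_nonneg (by linarith) _
  · filter_upwards [eventually_ge_atTop 1] with n hn
    have hn' : (1 : ℝ) ≤ n := by exact_mod_cast hn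
    have hn0 : (0 : ℝ) < n := by linarith
    have h3 : (L * n) ^ (-(2 / 3) : ℝ) ≤ 1 :=
      Real.rpow_le_one_of_one_le_of_nonpos (by nlinarith) (by norm_num)
    have h4 : 1 - (L * n) ^ (-(2 / 3) : ℝ) ≤ Real.exp (-(L * n) ^ (-(2 / 3) : ℝ)) := by
      have := Real.add_one_le_exp (-(L * n) ^ (-(2 / 3) : ℝ))
      linarith
    refine (pow_le_pow_left₀ (by linarith) h4 n).trans (le_of_eq ?_)
    rw [← Real.exp_nat_mul]
    simp only [Function.comp]
    congr 1
    rw [Real.mul_rpow hL0.le hn0.le]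
    have : (n : ℝ) ^ (1 / 3 : ℝ) = n * (n : ℝ) ^ (-(2 / 3) : ℝ) := by
      conv_rhs => rw [← Real.rpow_one_add' hn0.le (by norm_num)]
      norm_num
    rw [this]
    ring

lemma bad_tends {L : ℝ} (hL : 1 ≤ L) :
    Tendsto (fun n : ℕ => PP (rayEv 1 n (L * n) ∪ rayEv (-1) n (L * n))) atTop (𝓝 0) := by
  have h1 := ENNReal.tendsto_ofReal (tends_pow hL)
  rw [ENNReal.ofReal_zero] at h1
  have h2 := h1.add h1
  rw [add_zero] at h2
  refine tendsto_of_tendsto_of_tendsto_of_le_of_le' tendsto_const_nhds h2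
    (Eventually.of_forall fun _ => zero_le) ?_
  filter_upwards [eventually_ge_atTop 1] with n hn
  have hn' : (1 : ℝ) ≤ n := by exact_mod_cast hn
  have ht : 1 ≤ L * n := by nlinarith
  exact (measure_union_le _ _).trans
    (add_le_add (rayEv_le 1 (Or.inl rfl) n ht) (rayEv_le (-1) (Or.inr rfl) n ht))

lemma tail_int : ∫⁻ t in Ioi (0 : ℝ), (PP {ω | wt (ω 0) < -t}) ^ (2 * 1) < ∞ := by
  have hmap : ∀ t : ℝ, PP {ω | wt (ω 0) < -t} = unif {u | wt u < -t} := by
    intro t
    have hm : MeasurableSet {u | wt u < -t} := measurableSet_lt measurable_wt measurable_const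
    unfold PP
    conv_rhs => rw [← Measure.infinitePi_map_eval (fun _ : Fin 1 → ℤ => unif) 0]
    rw [Measure.map_apply (measurable_pi_apply 0) hm]
    rfl
  simp only [hmap]
  have hsplit : Ioi (0 : ℝ) ⊆ Ioc 0 1 ∪ Ioi 1 := by
    intro t ht
    rcases le_or_gt t 1 with h | h
    · exact Or.inl ⟨ht, h⟩
    · exact Or.inr h
  refine (lintegral_mono_set hsplit).trans_lt ((lintegral_union_le _ _ _).trans_lt ?_)
  refine ENNReal.add_lt_top.mpr ⟨?_, ?_⟩
  · have : ∫⁻ t in Ioc (0 : ℝ) 1, (unif {u | wt u < -t}) ^ (2 * 1) ≤ ∫⁻ _ in Ioc (0 : ℝ) 1, 1 :=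
      lintegral_mono fun t => pow_le_one' prob_le_one _
    refine this.trans_lt ?_
    simp
  · have hint := (integrableOn_Ioi_rpow_of_lt (by norm_num : (-(4 / 3) : ℝ) < -1)
      (by norm_num : (0 : ℝ) < 1)).2
    refine lt_of_le_of_lt ?_ hint
    refine setLIntegral_mono' measurableSet_Ioi fun t ht => ?_
    have ht0 : 0 < t := lt_trans one_pos ht
    refine (pow_le_pow_left' (unif_lt_le ht0) _).trans ?_
    rw [← ENNReal.ofReal_pow (Real.rpow_nonneg ht0.le _), ← Real.rpow_natCast,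
      ← Real.rpow_mul ht0.le, Real.enorm_eq_ofReal (Real.rpow_nonneg ht0.le _)]
    norm_num

theorem counter :
    ∃ (d : ℕ) (_ : 0 < d) (Ω : Type) (_ : MeasurableSpace Ω) (P : Measure Ω)
      (_ : IsProbabilityMeasure P) (X : (Fin d → ℤ) → Ω → ℝ),
      (∀ v, Measurable (X v)) ∧ iIndepFun X P ∧ (∀ v, IdentDistrib (X v) (X 0) P P) ∧
      (∃ α : ℝ, 0 < α ∧ ∫⁻ ω, ENNReal.ofReal
        (max (X 0 ω) 0 ^ d * max (Real.log (max (X 0 ω) 0)) 0 ^ ((d : ℝ) + α)) ∂P < ∞) ∧
      (∫⁻ t in Ioi (0 : ℝ), (P {ω | X 0 ω < -t}) ^ (2 * d) < ∞) ∧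
      (∀ n ω, IsGreatest (weights d n fun v => X v ω) (greedy d n fun v => X v ω)) ∧
      (∀ L : ℝ, Tendsto (fun n : ℕ => P {ω | -L < greedy d n (fun v => X v ω) / n})
        atTop (𝓝 0)) ∧
      ¬ ∃ M : ℝ, Tendsto
        (fun n : ℕ => ∫⁻ ω, ENNReal.ofReal |greedy d n (fun v => X v ω) / n - M| ∂P)
        atTop (𝓝 0) := by
  refine ⟨1, one_pos, (Fin 1 → ℤ) → ℝ, inferInstance, PP, inferInstance,
    fun v ω => wt (ω v), ?_, ?_, ?_, ?_, tail_int, ?_, ?_, ?_⟩
  · exact fun v => measurable_wt.comp (measurable_pi_apply v)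
  · exact iIndepFun_infinitePi (P := fun _ : Fin 1 → ℤ => unif) (X := fun _ => wt)
      (fun _ => measurable_wt)
  · intro v
    have h : ∀ w : Fin 1 → ℤ, PP.map (fun ω => wt (ω w)) = unif.map wt := by
      intro w
      unfold PP
      conv_rhs => rw [← Measure.infinitePi_map_eval (fun _ : Fin 1 → ℤ => unif) w]
      rw [Measure.map_map measurable_wt (measurable_pi_apply w)]
      rfl
    exact ⟨(measurable_wt.comp (measurable_pi_apply v)).aemeasurable,
      (measurable_wt.comp (measurable_pi_apply 0)).aemeasurable, by rw [h, h]⟩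
  · refine ⟨1, one_pos, ?_⟩
    have : ∀ ω : (Fin 1 → ℤ) → ℝ, max (wt (ω 0)) 0 = 0 := fun ω => max_eq_right (wt_nonpos _)
    simp [this]
  · intro n ω
    unfold greedy
    rw [weights_one, csSup_pair]
    exact isGreatest_pair
  · intro L
    have hL : 1 ≤ |L| + 1 := by have := abs_nonneg L; linarith
    refine tendsto_of_tendsto_of_tendsto_of_le_of_le' tendsto_const_nhds (bad_tends hL)
      (Eventually.of_forall fun _ => zero_le) ?_
    filter_upwards [eventually_ge_atTop 1] with n hn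
    have hn0 : (0 : ℝ) < n := by exact_mod_cast hn
    refine measure_mono fun ω hω => ?_
    by_contra hc
    have h1 := greedy_le hc
    simp only [mem_ofPred_eq] at hω
    rw [lt_div_iff₀ hn0] at hω
    have := le_abs_self L
    nlinarith
  · rintro ⟨M, hM⟩
    have hL : 1 ≤ |M| + 1 := by have := abs_nonneg M; linarith
    have h2 := hM.add (bad_tends hL)
    rw [add_zero] at h2
    have h3 : ∀ᶠ n : ℕ in atTop, (1 : ℝ≥0∞) ≤
        ∫⁻ ω, ENNReal.ofReal |greedy 1 n (fun v => wt (ω v)) / n - M| ∂PP +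
        PP (rayEv 1 n ((|M| + 1) * n) ∪ rayEv (-1) n ((|M| + 1) * n)) := by
      filter_upwards [eventually_ge_atTop 1] with n hn
      have hn0 : (0 : ℝ) < n := by exact_mod_cast hn
      set B := rayEv 1 n ((|M| + 1) * n) ∪ rayEv (-1) n ((|M| + 1) * n) with hB
      have hBm : MeasurableSet B := (rayEv_meas _ _ _).union (rayEv_meas _ _ _)
      have h4 : PP Bᶜ ≤ ∫⁻ ω, ENNReal.ofReal |greedy 1 n (fun v => wt (ω v)) / n - M| ∂PP := by
        rw [← lintegral_indicator_one hBm.compl]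
        refine lintegral_mono fun ω => ?_
        by_cases hω : ω ∈ Bᶜ
        · rw [indicator_of_mem hω, Pi.one_apply, ENNReal.one_le_ofReal]
          have h1 := greedy_le hω
          have h5 : greedy 1 n (fun v => wt (ω v)) / n ≤ -(|M| + 1) := by
            rw [div_le_iff₀ hn0]; linarith
          have := neg_abs_le M
          have h6 := neg_le_abs (greedy 1 n (fun v => wt (ω v)) / n - M)
          linarith
        · rw [indicator_of_notMem hω]; exact zero_le
      calc (1 : ℝ≥0∞) = PP Bᶜ + PP B := by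
            rw [add_comm, prob_add_prob_compl hBm]
        _ ≤ _ := add_le_add_left h4 _
    have := ge_of_tendsto h2 h3
    simp at this

end Pool.Agent.H742Z.GP.Line
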