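import Pool.Agent.H742Z.GP.Geo3
import Pool.Agent.H742Z.GP.Line
import Pool.Agent.H595Z.GP.Assembly

/-!
Greedy lattice paths with heavy negative tails: the answer in every dimension.
-/

set_option autoImplicit false

open scoped ENNReal
open MeasureTheory ProbabilityTheory Filter Topology Set

namespace Pool.Agent.H742Z.GP

universe u

theorem weights_eq (d n : ℕ) (x : V d → ℝ) :
    Line.weights d n x = {s | ∃ l, IsSAW n 0 l ∧ s = (l.map x).sum} := by
  ext s
  constructor
  · rintro ⟨v, ⟨h0, h1, h2⟩, rfl⟩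
    have e : (0 : V d) :: (List.range n).map (fun i => v (i + 1)) = (List.range (n + 1)).map v := by
      rw [List.range_succ_eq_map, List.map_cons, h0, List.map_map]
      rfl
    refine ⟨(List.range n).map (fun i => v (i + 1)), ⟨by simp, ?_, ?_⟩, ?_⟩
    · rw [e]
      refine List.Nodup.map_on (fun i hi j hj h => h2 i ?_ j ?_ h) List.nodup_range
      · have := List.mem_range.1 hi; omega
      · have := List.mem_range.1 hj; omega
    · rw [e, List.isChain_iff_getElem]
      intro i hi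
      simp only [List.length_map, List.length_range] at hi
      simp only [List.getElem_map, List.getElem_range]
      exact Adj.symm (h1 i (by omega))
    · rw [List.map_map]
      rfl
  · rintro ⟨l, ⟨h0, h1, h2⟩, rfl⟩
    have hg : ∀ i (hi : i < ((0 : V d) :: l).length), ((0 : V d) :: l).getD i 0 = (0 :: l)[i] :=
      fun i hi => List.getD_eq_getElem _ _ hi
    have hl : ((0 : V d) :: l).length = n + 1 := by simp [h0]
    refine ⟨fun i => ((0 : V d) :: l).getD i 0, ⟨rfl, fun i hi => ?_, fun i hi j hj h => ?_⟩, ?_⟩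
    · rw [List.isChain_iff_getElem] at h2
      have := h2 i (by omega)
      rw [← hg, ← hg] at this
      exact this.symm
    · simp only at h
      rw [hg i (by omega), hg j (by omega)] at h
      exact (List.Nodup.getElem_inj_iff h1).1 h
    · simp only [List.getD_cons_succ]
      rw [← h0, Finset.sum_range, ← List.sum_ofFn]
      congr 1
      refine List.ext_getElem (by simp) fun i h₁ h₂ => ?_
      simp only [List.length_map] at h₁
      simp [List.getD_eq_getElem _ _ h₁]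

theorem greedy_eq (d n : ℕ) (x : V d → ℝ) : Line.greedy d n x = G n 0 x := by
  rw [Line.greedy, weights_eq, G]

theorem greedy_isGreatest {d : ℕ} (hd : 1 ≤ d) (n : ℕ) (x : V d → ℝ) :
    IsGreatest (Line.weights d n x) (Line.greedy d n x) := by
  rw [greedy_eq, weights_eq]
  refine ⟨exists_G hd n 0 x, ?_⟩
  rintro s ⟨l, hl, rfl⟩
  exact le_G hl x

theorem positive {d : ℕ} (hd : 2 ≤ d) {Ω : Type u} [MeasurableSpace Ω]
    (P : Measure Ω) [IsProbabilityMeasure P] (X : V d → Ω → ℝ) (hm : ∀ v, Measurable (X v))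
    (hi : iIndepFun X P) (hid : ∀ v, IdentDistrib (X v) (X 0) P P)
    (hA : ∃ α : ℝ, 0 < α ∧ ∫⁻ ω, ENNReal.ofReal
      (max (X 0 ω) 0 ^ d * max (Real.log (max (X 0 ω) 0)) 0 ^ ((d : ℝ) + α)) ∂P < ∞)
    (hB : ∫⁻ t in Ioi (0 : ℝ), (P {ω | X 0 ω < -t}) ^ (2 * d) < ∞) :
    ∃ M : ℝ, Tendsto (fun n : ℕ =>
      ∫⁻ ω, ENNReal.ofReal |Line.greedy d n (fun v => X v ω) / n - M| ∂P) atTop (𝓝 0) := by
  obtain ⟨S, hS⟩ := exists_surg hd (2 * d * d - 1)
  simpa only [greedy_eq] using l1_limit (by omega) hS P X hm hi hid hA hB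

theorem measurable_greedy {d : ℕ} (hd : 1 ≤ d) {Ω : Type u} [MeasurableSpace Ω]
    (X : V d → Ω → ℝ) (hm : ∀ v, Measurable (X v)) (n : ℕ) :
    Measurable fun ω => Line.greedy d n fun v => X v ω := by
  simpa only [greedy_eq] using measurable_G hd n 0 X hm

theorem answer {d : ℕ} (hd : 1 ≤ d) :
    (∀ (Ω : Type) [MeasurableSpace Ω] (P : Measure Ω) [IsProbabilityMeasure P]
      (X : (Fin d → ℤ) → Ω → ℝ), (∀ v, Measurable (X v)) → iIndepFun X P →
      (∀ v, IdentDistrib (X v) (X 0) P P) →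
      (∃ α : ℝ, 0 < α ∧ ∫⁻ ω, ENNReal.ofReal
        (max (X 0 ω) 0 ^ d * max (Real.log (max (X 0 ω) 0)) 0 ^ ((d : ℝ) + α)) ∂P < ∞) →
      (∫⁻ t in Ioi (0 : ℝ), (P {ω | X 0 ω < -t}) ^ (2 * d) < ∞) →
      ∃ M : ℝ, Tendsto (fun n : ℕ =>
        ∫⁻ ω, ENNReal.ofReal |Line.greedy d n (fun v => X v ω) / n - M| ∂P) atTop (𝓝 0)) ↔
    2 ≤ d := by
  refine ⟨fun h => ?_, fun h Ω _ P _ X hm hi hid hA hB => positive h P X hm hi hid hA hB⟩
  by_contra h2
  obtain ⟨e, he, Ω, _, P, _, X, hm, hi, hid, hA, hB, -, -, hn⟩ := Line.counter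
  by_cases h3 : 2 ≤ e
  · exact hn (positive h3 P X hm hi hid hA hB)
  · obtain rfl : e = d := by omega
    exact hn (h Ω P X hm hi hid hA hB)

end Pool.Agent.H742Z.GP
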