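import Pool.Agent.H742Z.GP.Moves

/-!
The capsule: level function and the descent step.
-/

set_option autoImplicit false

namespace Pool.Agent.H742Z.GP

open Set Function

namespace Caps

variable {n : ℕ}

/-- the excess vector of a site -/
def av (c : ℕ) (x : V (n + 2)) : Fin (n + 2) → ℕ :=
  fun i => if i = 0 then (x 0).natAbs - c else (x i).natAbs

/-- distance to the axis -/
def nu (x : V (n + 2)) : ℕ := ∑ i : Fin (n + 1), (x i.succ).natAbs

/-- the level -/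
def phi (c : ℕ) (x : V (n + 2)) : ℕ := ∑ i, av c x i

/-- one step towards the hyperplane of a coordinate -/
def dn (x : V (n + 2)) (i : Fin (n + 2)) : V (n + 2) := update x i (x i - (x i).sign)

/-- an admissible step to the next level -/
def Dn (c : ℕ) (x z : V (n + 2)) : Prop := ∃ i, 2 ≤ av c x i ∧ z = dn x i

/-- residue classes just below the gadget class -/
def Rs (c q s : ℕ) (x : V (n + 2)) : Prop := ∃ j, 1 ≤ j ∧ j ≤ s ∧ (ell (av c x) + j) % q = 0

variable {c : ℕ}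

theorem phi_eq (x : V (n + 2)) : phi c x = ((x 0).natAbs - c) + nu x := by
  simp [phi, nu, av, Fin.sum_univ_succ]

theorem av_le (x : V (n + 2)) (i : Fin (n + 2)) : av c x i ≤ (x i).natAbs := by
  unfold av
  split_ifs with h
  · subst h; omega
  · exact le_rfl

theorem adj_update {d : ℕ} (x : V d) (i : Fin d) {a b : ℤ} (h : |a - b| = 1) :
    Adj (update x i a) (update x i b) := by
  unfold Adj
  rw [Finset.sum_eq_single i]
  · simpa using h
  · intro k _ hk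
    simp [update_of_ne hk]
  · simp

theorem sign_facts {a : ℤ} (h : 2 ≤ a.natAbs) :
    (2 ≤ a ∧ a.sign = 1) ∨ (a ≤ -2 ∧ a.sign = -1) := by
  rcases lt_trichotomy a 0 with h0 | h0 | h0
  · exact Or.inr ⟨by omega, Int.sign_eq_neg_one_of_neg h0⟩
  · omega
  · exact Or.inl ⟨by omega, Int.sign_eq_one_of_pos h0⟩

theorem adj_dn {x : V (n + 2)} {i : Fin (n + 2)} (h : 2 ≤ av c x i) : Adj x (dn x i) := by
  have h1 := sign_facts (h.trans (av_le x i))
  have := adj_update x i (a := x i) (b := x i - (x i).sign) (by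
    rcases h1 with ⟨_, h2⟩ | ⟨_, h2⟩ <;> rw [h2] <;> simp)
  rwa [update_eq_self] at this

theorem av_dn {x : V (n + 2)} {i : Fin (n + 2)} (h : 2 ≤ av c x i) :
    av c (dn x i) = dec (av c x) i := by
  have h1 := sign_facts (h.trans (av_le x i))
  funext k
  by_cases hk : k = i
  · subst hk
    simp only [dec, update_self]
    unfold av at h ⊢
    split_ifs at h ⊢ with h0
    · subst h0
      simp only [dn, update_self]
      omega
    · simp only [dn, update_self]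
      omega
  · simp only [dec, update_of_ne hk]
    unfold av
    split_ifs with h0
    · subst h0
      simp only [dn, update_of_ne hk]
    · simp only [dn, update_of_ne hk]

theorem sum_dec {N : ℕ} (g : Fin N → ℕ) (a : Fin N → ℕ) (i : Fin N) (h : 1 ≤ a i) :
    ∑ k, g k * dec a i k + g i = ∑ k, g k * a k := by
  rw [← Finset.add_sum_erase _ _ (Finset.mem_univ i),
    ← Finset.add_sum_erase _ (fun k => g k * a k) (Finset.mem_univ i)]
  have h2 : ∑ k ∈ Finset.univ.erase i, g k * dec a i k = ∑ k ∈ Finset.univ.erase i, g k * a k :=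
    Finset.sum_congr rfl fun k hk => by
      simp only [dec, update_of_ne (Finset.ne_of_mem_erase hk)]
  rw [h2]
  simp only [dec, update_self]
  obtain ⟨m, hm⟩ := Nat.exists_eq_add_of_le h
  rw [hm, Nat.add_sub_cancel_left]
  ring

theorem phi_dn {x : V (n + 2)} {i : Fin (n + 2)} (h : 2 ≤ av c x i) :
    phi c (dn x i) + 1 = phi c x := by
  have := sum_dec (fun _ => 1) (av c x) i (by omega)
  simpa [phi, av_dn h] using this

theorem ell_dn {x : V (n + 2)} {i : Fin (n + 2)} (h : 2 ≤ av c x i) :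
    ell (av c (dn x i)) + (i.val + 1) = ell (av c x) := by
  have := sum_dec (fun k => k.val + 1) (av c x) i (by omega)
  simpa only [ell, av_dn h] using this

theorem dn_inj {x y : V (n + 2)} {i : Fin (n + 2)} (hx : 2 ≤ av c x i) (hy : 2 ≤ av c y i)
    (h : dn x i = dn y i) : x = y := by
  have h1 := sign_facts (hx.trans (av_le x i))
  have h2 := sign_facts (hy.trans (av_le y i))
  funext k
  have h3 := congrFun h k
  by_cases hk : k = i
  · subst hk
    simp only [dn, update_self] at h3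
    omega
  · simpa only [dn, update_of_ne hk] using h3

theorem Dn.phi {x z : V (n + 2)} (h : Dn c x z) : phi c z + 1 = phi c x := by
  obtain ⟨i, hi, rfl⟩ := h
  exact phi_dn hi

theorem Dn.adj {x z : V (n + 2)} (h : Dn c x z) : Adj x z := by
  obtain ⟨i, hi, rfl⟩ := h
  exact adj_dn hi

theorem Dn.col {x z : V (n + 2)} (h : Dn c x z) :
    (-(c : ℤ) ≤ x 0 → x 0 ≤ c → z 0 = x 0) ∧ ((c : ℤ) < x 0 → (c : ℤ) < z 0) ∧
      (x 0 < -(c : ℤ) → z 0 < -(c : ℤ)) := by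
  obtain ⟨i, hi, rfl⟩ := h
  by_cases h0 : i = 0
  · subst h0
    have h1 := sign_facts (hi.trans (av_le x 0))
    simp only [av, if_true] at hi
    simp only [dn, update_self]
    omega
  · have : dn x i 0 = x 0 := by simp only [dn, update_of_ne (Ne.symm h0)]
    omega

theorem Dn.rs {q s : ℕ} {x z : V (n + 2)} (h : Dn c x z) (hx : Rs c q s x) :
    Rs c q (s + (n + 2)) z := by
  obtain ⟨i, hi, rfl⟩ := h
  obtain ⟨j, h1, h2, h3⟩ := hx
  have := ell_dn hi
  have hi2 := i.2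
  exact ⟨i.val + 1 + j, by omega, by omega, by rw [← add_assoc, this, h3]⟩

theorem Dn.rs_of_W {q : ℕ} {x z : V (n + 2)} (h : Dn c x z) (hx : IsW q (av c x)) :
    Rs c q (n + 2) z := by
  obtain ⟨i, hi, rfl⟩ := h
  have := ell_dn hi
  have hi2 := i.2
  exact ⟨i.val + 1, by omega, by omega, by rw [this, hx.1]⟩

theorem Rs.mono {q s t : ℕ} {x : V (n + 2)} (hx : Rs c q s x) (h : s ≤ t) : Rs c q t x := by
  obtain ⟨j, h1, h2, h3⟩ := hx
  exact ⟨j, h1, h2.trans h, h3⟩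

theorem Rs.not_W {q s : ℕ} {x : V (n + 2)} (hx : Rs c q s x) (h : s < q) :
    ¬ IsW q (av c x) := by
  obtain ⟨j, h1, h2, h3⟩ := hx
  rintro ⟨h4, -⟩
  rw [Nat.add_mod, h4, zero_add, Nat.mod_mod, Nat.mod_eq_of_lt (by omega)] at h3
  omega

theorem finite_phi (r : ℕ) : {x : V (n + 2) | phi c x ≤ r}.Finite := by
  refine (ball (0 : V (n + 2)) (c + r)).finite_toSet.subset fun x hx => ?_
  rw [Finset.mem_coe, mem_ball]
  intro i
  have h1 : av c x i ≤ phi c x :=
    Finset.single_le_sum (f := av c x) (fun _ _ => Nat.zero_le _) (Finset.mem_univ i)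
  have h2 : phi c x ≤ r := hx
  unfold av at h1
  simp only [Pi.zero_apply, sub_zero]
  rw [abs_le]
  split_ifs at h1 with h0
  · subst h0; push_cast; omega
  · push_cast; omega

theorem phi_adj {z y : V (n + 2)} (h : Adj z y) : phi c y ≤ phi c z + 1 := by
  have h1 : ∑ i, (z i - y i).natAbs = 1 := by
    have : ((∑ i, (z i - y i).natAbs : ℕ) : ℤ) = 1 := by
      push_cast
      exact h
    exact_mod_cast this
  rw [← h1, phi, phi, ← Finset.sum_add_distrib]
  refine Finset.sum_le_sum fun i _ => ?_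
  unfold av
  split_ifs with h0
  · subst h0; omega
  · omega

theorem av_update {x : V (n + 2)} {k : ℤ} (h1 : -(c : ℤ) ≤ x 0) (h2 : x 0 ≤ c)
    (h3 : -(c : ℤ) ≤ k) (h4 : k ≤ c) : av c (update x 0 k) = av c x := by
  funext i
  unfold av
  split_ifs with h0
  · simp only [update_self]; omega
  · rw [update_of_ne h0]

theorem nu_update (x : V (n + 2)) (k : ℤ) : nu (update x 0 k) = nu x := by
  simp only [nu, update_of_ne (Fin.succ_ne_zero _)]

/-- the matching between consecutive levels -/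
structure Match (n c q ρ₀ : ℕ) where
  f : V (n + 2) → V (n + 2)
  dn : ∀ x, ρ₀ ≤ phi c x → ¬ IsW q (av c x) → Dn c x (f x)
  inj : ∀ x y, ρ₀ ≤ phi c x → phi c x = phi c y → ¬ IsW q (av c x) → ¬ IsW q (av c y) →
    f x = f y → x = y
  upd : ∀ x k, ρ₀ ≤ phi c x → ¬ IsW q (av c x) → -(c : ℤ) ≤ x 0 → x 0 ≤ c → -(c : ℤ) ≤ k →
    k ≤ c → f (update x 0 k) = update (f x) 0 k

theorem exists_match {q ρ₀ : ℕ} (h : SW (n + 2) q ρ₀) (c : ℕ) : Nonempty (Match n c q ρ₀) := by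
  classical
  choose! ι h1 h2 using h
  refine ⟨⟨fun x => dn x (ι (phi c x) (av c x)), fun x hx hW => ⟨_, h1 _ hx _ rfl hW, rfl⟩,
    fun x y hx hxy hWx hWy hf => ?_, fun x k hx hW a1 a2 a3 a4 => ?_⟩⟩
  · have b1 := h1 _ hx _ rfl hWx
    have b2 := h1 _ hx _ hxy.symm hWy
    simp only [← hxy] at hf
    have b3 := h2 _ hx _ _ rfl hxy.symm hWx hWy (by rw [← av_dn b1, ← av_dn b2, hf])
    rw [← b3] at hf
    refine dn_inj b1 ?_ hf
    rw [← b3]
    exact b1
  · have b1 := h1 _ hx _ rfl hW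
    have b2 : av c (update x 0 k) = av c x := av_update a1 a2 a3 a4
    have b3 : phi c (update x 0 k) = phi c x := by rw [phi, b2, phi]
    simp only [b2, b3]
    have b4 : ι (phi c x) (av c x) ≠ 0 := by
      intro h0
      rw [h0] at b1
      simp only [av, if_true] at b1
      omega
    simp only [dn, update_of_ne b4]
    rw [update_comm (Ne.symm b4)]

/-- all tokens of `T` go down one level -/
theorem step {q ρ₀ r ρ : ℕ} (M : Match n c q ρ₀) (hq : 3 * (n + 2) < q) (h0 : ρ₀ ≤ ρ)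
    (hr : ρ ≤ r) {T A B : Set (V (n + 2))} (hT : ∀ x ∈ T, phi c x = ρ)
    (hB : ∀ x ∈ T, ∀ z, Dn c x z → z ∉ B) (hA : ∀ x ∈ T, ∀ z, Dn c x z → z ∉ A) :
    Mvs Adj {x | phi c x ≤ r} (A, B)
      ((A \ T) ∪ (M.f '' {x | x ∈ T ∧ ¬ IsW q (av c x)} ∪
          {z | ∃ x ∈ T, IsW q (av c x) ∧ Dn c x z}),
        B ∪ (T ∪ {z | ∃ x ∈ T, IsW q (av c x) ∧ Dn c x z})) := by
  classical
  have hfin : T.Finite := (finite_phi (c := c) ρ).subset fun x hx => (hT x hx).le
  have hd : ∀ x ∈ {x | x ∈ T ∧ ¬ IsW q (av c x)}, Dn c x (M.f x) :=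
    fun x hx => M.dn x (by rw [hT x hx.1]; exact h0) hx.2
  have hlev : ∀ x ∈ T, ∀ z, Dn c x z → ∀ y ∈ T, z ≠ y := by
    intro x hx z hz y hy h
    have h1 := hz.phi
    rw [h, hT x hx, hT y hy] at h1
    omega
  have hQ : ∀ x ∈ T, ∀ z, Dn c x z → z ∈ {x | phi c x ≤ r} := by
    intro x hx z hz
    have h1 := hz.phi
    rw [hT x hx] at h1
    show phi c z ≤ r
    omega
  have m1 := batch_move (R := Adj) (Q := {x | phi c x ≤ r}) (A := A) (B := B)
    (hfin.subset (fun x hx => hx.1 : {x | x ∈ T ∧ ¬ IsW q (av c x)} ⊆ T)) id M.f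
    (fun x hx y hy h => M.inj x y (by rw [hT x hx.1]; exact h0) (by rw [hT x hx.1, hT y hy.1])
      hx.2 hy.2 h)
    (fun x hx => (hd x hx).adj) (fun x hx => hQ x hx.1 _ (hd x hx))
    (fun x hx => hA x hx.1 _ (hd x hx)) (fun x hx => hB x hx.1 _ (hd x hx))
    (fun x hx y hy => hlev x hx.1 _ (hd x hx) y hy.1)
  have hW : ∀ x ∈ {x | x ∈ T ∧ IsW q (av c x)}, ∃ i k, i ≠ k ∧ 2 ≤ av c x i ∧ 2 ≤ av c x k :=
    fun x hx => hx.2.2
  choose! i₁ i₂ hne h₁ h₂ using hW
  have key : ∀ x ∈ {x | x ∈ T ∧ IsW q (av c x)}, ∀ y ∈ {x | x ∈ T ∧ IsW q (av c x)}, ∀ i k,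
      2 ≤ av c x i → 2 ≤ av c y k → dn x i = dn y k → i = k ∧ x = y := by
    intro x hx y hy i k hi hk h
    have e1 := ell_dn hi
    have e2 := ell_dn hk
    rw [h] at e1
    have e3 := hx.2.1
    have e4 := hy.2.1
    have e5 : (i.val + 1) % q = (k.val + 1) % q := by
      have e6 : ell (av c (dn y k)) + (i.val + 1) ≡ ell (av c (dn y k)) + (k.val + 1) [MOD q] := by
        rw [e1, e2, Nat.ModEq, e3, e4]
      exact Nat.ModEq.add_left_cancel' _ e6
    have hi2 := i.2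
    have hk2 := k.2
    rw [Nat.mod_eq_of_lt (by omega), Nat.mod_eq_of_lt (by omega)] at e5
    have e7 : i = k := Fin.ext (by omega)
    subst e7
    exact ⟨rfl, dn_inj hi hk h⟩
  have d1 : ∀ x ∈ {x | x ∈ T ∧ IsW q (av c x)}, Dn c x (dn x (i₁ x)) :=
    fun x hx => ⟨_, h₁ x hx, rfl⟩
  have d2 : ∀ x ∈ {x | x ∈ T ∧ IsW q (av c x)}, Dn c x (dn x (i₂ x)) :=
    fun x hx => ⟨_, h₂ x hx, rfl⟩
  refine (m1.trans (batch_gad
    (hfin.subset (fun x hx => hx.1 : {x | x ∈ T ∧ IsW q (av c x)} ⊆ T)) id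
    (fun x => dn x (i₁ x)) (fun x => dn x (i₂ x))
    (fun x hx y hy h => (key x hx y hy _ _ (h₁ x hx) (h₁ y hy) h).2)
    (fun x hx y hy h => (key x hx y hy _ _ (h₂ x hx) (h₂ y hy) h).2)
    (fun x hx y hy h => ?_) (fun x hx => ⟨(d1 x hx).adj, (d2 x hx).adj⟩)
    (fun x hx => ⟨hQ x hx.1 _ (d1 x hx), hQ x hx.1 _ (d2 x hx)⟩) (fun x hx => ?_)
    (fun x hx y hy => ⟨hlev x hx.1 _ (d1 x hx) y hy.1, hlev x hx.1 _ (d2 x hx) y hy.1⟩))).right
    ?_ ?_
  · obtain ⟨e1, e2⟩ := key x hx y hy _ _ (h₁ x hx) (h₂ y hy) h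
    subst e2
    exact hne x hx e1
  · constructor
    · rintro (h | ⟨y, hy, h⟩)
      · exact hB x hx.1 _ (d1 x hx) h
      · exact hlev x hx.1 _ (d1 x hx) y hy.1 h.symm
    · rintro (h | ⟨y, hy, h⟩)
      · exact hB x hx.1 _ (d2 x hx) h
      · exact hlev x hx.1 _ (d2 x hx) y hy.1 h.symm
  · rintro z (⟨⟨h1, h2⟩ | h1, h3⟩ | ⟨x, hx, rfl⟩ | ⟨x, hx, rfl⟩)
    · refine Or.inl ⟨h1, fun h4 => ?_⟩
      by_cases h5 : IsW q (av c z)
      · exact h3 ⟨z, ⟨h4, h5⟩, rfl⟩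
      · exact h2 ⟨z, ⟨h4, h5⟩, rfl⟩
    · exact Or.inr (Or.inl h1)
    · exact Or.inr (Or.inr ⟨x, hx.1, hx.2, d1 x hx⟩)
    · exact Or.inr (Or.inr ⟨x, hx.1, hx.2, d2 x hx⟩)
  · rintro z ((h1 | ⟨x, hx, rfl⟩) | ⟨x, hx, rfl⟩ | ⟨x, hx, rfl⟩ | ⟨x, hx, rfl⟩)
    · exact Or.inl h1
    · exact Or.inr (Or.inl hx.1)
    · exact Or.inr (Or.inl hx.1)
    · exact Or.inr (Or.inr ⟨x, hx.1, hx.2, d1 x hx⟩)
    · exact Or.inr (Or.inr ⟨x, hx.1, hx.2, d2 x hx⟩)

end Caps

end Pool.Agent.H742Z.GP
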