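import Pool.Agent.H742Z.GP.Geo1
import Pool.Agent.H234Z.GP.Ladder

/-!
The capsule: removal of the tokens in the middle columns.
-/

set_option autoImplicit false

namespace Pool.Agent.H742Z.GP

open Set Function

namespace Caps

variable {n c q ρ₀ : ℕ}

theorem adj_col (x : V (n + 2)) {a b : ℤ} (h : a = b + 1 ∨ b = a + 1) :
    Adj (update x 0 a) (update x 0 b) :=
  adj_update x 0 (by rcases h with h | h <;> subst h <;> simp)

/-- ladders along the rows of `E` -/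
theorem lad {r ρ : ℕ} (M : Match n c q ρ₀) (h0 : ρ₀ ≤ ρ) (hr : ρ ≤ r) {lo : ℤ}
    (hlo : -(c : ℤ) ≤ lo) (hlo' : lo < c) {E A B : Set (V (n + 2))}
    (hE : ∀ x ∈ E, phi c x = ρ ∧ ¬ IsW q (av c x) ∧ lo ≤ x 0 ∧ x 0 ≤ c)
    (hE' : ∀ x ∈ E, ∀ k, lo ≤ k → k ≤ c → update x 0 k ∈ E)
    (hB : ∀ x ∈ E, x ∉ B ∧ M.f x ∉ A ∧ M.f x ∉ B) :
    Mvs Adj {x | phi c x ≤ r} (A, B)
      ((A \ E) ∪ {z | phi c z + 1 = ρ ∧ lo ≤ z 0 ∧ z 0 ≤ lo + 1}, B ∪ {z | ρ ≤ phi c z + 1}) := by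
  obtain ⟨m, hm⟩ : ∃ m : ℕ, (m : ℤ) = c - lo := ⟨(c - lo).toNat, by omega⟩
  have hfin : {x | x ∈ E ∧ x 0 = c}.Finite :=
    (finite_phi (c := c) ρ).subset fun x hx => (hE x hx.1).1.le
  have hp : ∀ x ∈ {x | x ∈ E ∧ x 0 = c}, ∀ t ≤ m, update x 0 ((c : ℤ) - (t : ℕ)) ∈ E :=
    fun x hx t ht => hE' x hx.1 _ (by omega) (by omega)
  have hd : ∀ x ∈ E, Dn c x (M.f x) := fun x hx =>
    M.dn x (by rw [(hE x hx).1]; exact h0) (hE x hx).2.1
  have hu : ∀ x ∈ {x | x ∈ E ∧ x 0 = c}, ∀ t ≤ m,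
      M.f (update x 0 ((c : ℤ) - (t : ℕ))) = update (M.f x) 0 ((c : ℤ) - (t : ℕ)) :=
    fun x hx t ht => M.upd x _ (by rw [(hE x hx.1).1]; exact h0) (hE x hx.1).2.1
      (by have := (hE x hx.1).2.2.1; omega) (hE x hx.1).2.2.2 (by omega) (by omega)
  have hinj : ∀ x ∈ {x | x ∈ E ∧ x 0 = c}, ∀ y ∈ {x | x ∈ E ∧ x 0 = c}, ∀ s t : ℕ,
      update x 0 ((c : ℤ) - s) = update y 0 ((c : ℤ) - t) → x = y ∧ s = t := by
    intro x hx y hy s t h
    have h1 := congrFun h 0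
    simp only [update_self] at h1
    refine ⟨funext fun i => ?_, by omega⟩
    by_cases hi : i = 0
    · rw [hi, hx.2, hy.2]
    · simpa only [update_of_ne hi] using congrFun h i
  refine (ladder (R := Adj) (Q := {x | phi c x ≤ r}) (A := A) (B := B) hfin
    (fun x t => update x 0 ((c : ℤ) - t)) (fun x t => M.f (update x 0 ((c : ℤ) - t))) m
    (by omega) (fun x _ t _ => adj_col x (by push_cast; omega)) (fun x hx t ht => ?_)
    (fun x hx t ht => (hd _ (hp x hx t ht)).adj) (fun x hx y hy s hs t ht => ⟨?_, ?_, ?_⟩)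
    (fun x hx t ht => ⟨?_, ?_⟩) (fun x hx t ht _ => (hB _ (hp x hx t ht)).1)
    (fun x hx t ht => (hB _ (hp x hx t ht)).2)).right ?_ ?_
  · rw [hu x hx t ht.le, hu x hx (t + 1) ht]
    exact adj_col _ (by push_cast; omega)
  · exact hinj x hx y hy s t
  · intro h
    exact hinj x hx y hy s t (M.inj _ _ (by rw [(hE _ (hp x hx s hs)).1]; exact h0)
      (by rw [(hE _ (hp x hx s hs)).1, (hE _ (hp y hy t ht)).1]) (hE _ (hp x hx s hs)).2.1
      (hE _ (hp y hy t ht)).2.1 h)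
  · intro h
    have h1 := (hd _ (hp y hy t ht)).phi
    rw [← h, (hE _ (hp x hx s hs)).1, (hE _ (hp y hy t ht)).1] at h1
    omega
  · show phi c _ ≤ r
    rw [(hE _ (hp x hx t ht)).1]
    exact hr
  · show phi c _ ≤ r
    have h1 := (hd _ (hp x hx t ht)).phi
    rw [(hE _ (hp x hx t ht)).1] at h1
    omega
  · rintro z (⟨h1, h2⟩ | ⟨x, hx, h⟩)
    · refine Or.inl ⟨h1, fun h3 => h2 ⟨update z 0 c, ⟨hE' z h3 _ hlo'.le le_rfl, by simp⟩,
        ((c : ℤ) - z 0).toNat, ?_, ?_⟩⟩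
      · have := (hE z h3).2.2
        omega
      · have := (hE z h3).2.2
        rw [update_idem, show (c : ℤ) - (((c : ℤ) - z 0).toNat : ℕ) = z 0 by omega, update_eq_self]
    · right
      rcases h with rfl | rfl
      · have h1 := (hd _ (hp x hx (m - 1) (by omega))).phi
        rw [(hE _ (hp x hx (m - 1) (by omega))).1] at h1
        refine ⟨h1, ?_⟩
        rw [hu x hx (m - 1) (by omega), update_self]
        omega
      · have h1 := (hd _ (hp x hx m le_rfl)).phi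
        rw [(hE _ (hp x hx m le_rfl)).1] at h1
        refine ⟨h1, ?_⟩
        rw [hu x hx m le_rfl, update_self]
        omega
  · rintro z (h1 | ⟨x, hx, t, ht, rfl | rfl⟩)
    · exact Or.inl h1
    · right
      show ρ ≤ phi c _ + 1
      rw [(hE _ (hp x hx t ht)).1]
      omega
    · right
      have h1 := (hd _ (hp x hx t ht)).phi
      rw [(hE _ (hp x hx t ht)).1] at h1
      exact h1.ge

theorem stage1 {r ρ : ℕ} (M : Match n c q ρ₀) (hq : 3 * (n + 2) < q) (h0 : ρ₀ ≤ ρ)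
    (hr : r = ρ + 8) :
    Mvs Adj {x : V (n + 2) | phi c x ≤ r} ({x | phi c x = ρ + 8}, {x | phi c x = ρ + 8})
      ({x | phi c x = ρ + 7}, {x | ρ + 8 ≤ phi c x ∨ (phi c x = ρ + 7 ∧ Rs c q (n + 2) x)}) := by
  refine (step (ρ := ρ + 8) (T := {x | phi c x = ρ + 8}) M hq (by omega) hr.ge (fun x hx => hx)
    (fun x hx z hz h => ?_) (fun x hx z hz h => ?_)).right ?_ ?_
  · have := hz.phi
    simp only [mem_ofPred_eq] at hx h
    omega
  · have := hz.phi
    simp only [mem_ofPred_eq] at hx h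
    omega
  · rintro z (⟨h1, h2⟩ | ⟨x, hx, rfl⟩ | ⟨x, hx, -, h⟩)
    · exact absurd h1 h2
    · have := (M.dn x (by have := hx.1; simp only [mem_ofPred_eq] at this; omega) hx.2).phi
      have := hx.1
      simp only [mem_ofPred_eq] at *
      omega
    · have := h.phi
      simp only [mem_ofPred_eq] at *
      omega
  · rintro z (h | h | ⟨x, hx, hW, h⟩)
    · exact Or.inl (le_of_eq h.symm)
    · exact Or.inl (le_of_eq h.symm)
    · have := h.phi
      simp only [mem_ofPred_eq] at *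
      exact Or.inr ⟨by omega, h.rs_of_W hW⟩

theorem stage2 {r ρ : ℕ} (M : Match n c q ρ₀) (hq : 3 * (n + 2) < q) (h0 : ρ₀ ≤ ρ)
    (hr : r = ρ + 8) (hc : 2 ≤ c) :
    Mvs Adj {x : V (n + 2) | phi c x ≤ r}
      ({x | phi c x = ρ + 7}, {x | ρ + 8 ≤ phi c x ∨ (phi c x = ρ + 7 ∧ Rs c q (n + 2) x)})
      ({x | phi c x = ρ + 6 ∧ ((c : ℤ) < x 0 ∨ x 0 ≤ -(c : ℤ) + 1 ∨ Rs c q (2 * (n + 2)) x)},
        {x | ρ + 6 ≤ phi c x}) := by
  set E : Set (V (n + 2)) := {x | phi c x = ρ + 7 ∧ ¬ IsW q (av c x) ∧ -(c : ℤ) ≤ x 0 ∧ x 0 ≤ c ∧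
    ¬ Rs c q (n + 2) x ∧ ¬ Rs c q (n + 2) (M.f x)} with hEdef
  have m1 := step (r := r) (ρ := ρ + 7) (T := {x | phi c x = ρ + 7 ∧ x ∉ E})
    (A := {x | phi c x = ρ + 7})
    (B := {x | ρ + 8 ≤ phi c x ∨ (phi c x = ρ + 7 ∧ Rs c q (n + 2) x)})
    M hq (by omega) (by omega) (fun x hx => hx.1) (fun x hx z hz h => by
      have := hz.phi
      have := hx.1
      simp only [mem_ofPred_eq] at h
      omega) (fun x hx z hz h => by
      have := hz.phi
      have := hx.1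
      simp only [mem_ofPred_eq] at h
      omega)
  refine (m1.trans (lad (ρ := ρ + 7) (lo := -(c : ℤ)) (E := E) M (by omega) (by omega) le_rfl
    (by omega) (fun x hx => ⟨hx.1, hx.2.1, hx.2.2.1, hx.2.2.2.1⟩) (fun x hx k h1 h2 => ?_)
    (fun x hx => ?_))).right ?_ ?_
  · obtain ⟨a1, a2, a3, a4, a5, a6⟩ := hx
    have b1 : av c (update x 0 k) = av c x := av_update a3 a4 h1 h2
    have b2 := (M.dn x (by omega) a2).col.1 a3 a4
    have b3 : av c (update (M.f x) 0 k) = av c (M.f x) :=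
      av_update (by omega) (by omega) h1 h2
    refine ⟨by rw [phi, b1]; exact a1, by rw [b1]; exact a2, by rw [update_self]; exact h1,
      by rw [update_self]; exact h2, by rw [Rs, b1]; exact a5, ?_⟩
    rw [M.upd x k (by omega) a2 a3 a4 h1 h2, Rs, b3]
    exact a6
  · have hx' := hx
    obtain ⟨a1, a2, a3, a4, a5, a6⟩ := hx
    have b1 := (M.dn x (by omega) a2).phi
    refine ⟨?_, ?_, ?_⟩
    · rintro ((h | h) | h | ⟨y, hy, -, h⟩)
      · omega
      · exact a5 h.2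
      · exact h.2 hx'
      · have := h.phi
        have := hy.1
        omega
    · rintro (⟨h, -⟩ | ⟨y, hy, h⟩ | ⟨y, hy, hW, h⟩)
      · simp only [mem_ofPred_eq] at h
        omega
      · have e := M.inj y x (by have := hy.1.1; omega) (by rw [hy.1.1, a1]) hy.2 a2 h
        subst e
        exact hy.1.2 hx'
      · exact a6 (h.rs_of_W hW)
    · rintro ((h | h) | h | ⟨y, hy, hW, h⟩)
      · omega
      · have := h.1
        omega
      · have := h.1
        omega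
      · exact a6 (h.rs_of_W hW)
  · rintro z (⟨⟨h1, h2⟩ | ⟨x, hx, rfl⟩ | ⟨x, hx, hW, h⟩, h3⟩ | h)
    · exact absurd ⟨h1, h3⟩ h2
    · have b0 := hx.1.1
      have b1 := M.dn x (by omega) hx.2
      have b2 := b1.phi
      have b3 := b1.col
      refine ⟨by omega, ?_⟩
      by_cases c1 : (c : ℤ) < x 0
      · exact Or.inl (b3.2.1 c1)
      by_cases c2 : x 0 < -(c : ℤ)
      · exact Or.inr (Or.inl (by have := b3.2.2 c2; omega))
      right; right
      by_cases c3 : Rs c q (n + 2) x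
      · exact (b1.rs c3).mono (by omega)
      by_cases c4 : Rs c q (n + 2) (M.f x)
      · exact c4.mono (by omega)
      exact absurd ⟨b0, hx.2, by omega, by omega, c3, c4⟩ hx.1.2
    · have b0 := hx.1
      have b2 := h.phi
      exact ⟨by omega, Or.inr (Or.inr ((h.rs_of_W hW).mono (by omega)))⟩
    · obtain ⟨a1, a2, a3⟩ := h
      exact ⟨by omega, Or.inr (Or.inl a3)⟩
  · rintro z (((h | h) | h | ⟨x, hx, -, h⟩) | h)
    · show ρ + 6 ≤ phi c z
      omega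
    · exact (show ρ + 6 ≤ phi c z by have := h.1; omega)
    · exact (show ρ + 6 ≤ phi c z by have := h.1; omega)
    · exact (show ρ + 6 ≤ phi c z by have := h.phi; have := hx.1; omega)
    · simp only [mem_ofPred_eq] at h ⊢
      omega

theorem stage3 {r ρ : ℕ} (M : Match n c q ρ₀) (hq : 3 * (n + 2) < q) (h0 : ρ₀ ≤ ρ)
    (hr : r = ρ + 8) :
    Mvs Adj {x : V (n + 2) | phi c x ≤ r}
      ({x | phi c x = ρ + 6 ∧ ((c : ℤ) < x 0 ∨ x 0 ≤ -(c : ℤ) + 1 ∨ Rs c q (2 * (n + 2)) x)},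
        {x | ρ + 6 ≤ phi c x})
      ({x | phi c x = ρ + 5 ∧ ((c : ℤ) < x 0 ∨ x 0 ≤ -(c : ℤ) + 1 ∨ Rs c q (3 * (n + 2)) x)},
        {x | ρ + 6 ≤ phi c x ∨ (phi c x = ρ + 5 ∧ ((c : ℤ) < x 0 ∨ x 0 ≤ -(c : ℤ) + 1))}) := by
  have key : ∀ x z : V (n + 2), Dn c x z → ((c : ℤ) < x 0 ∨ x 0 ≤ -(c : ℤ) + 1) →
      ((c : ℤ) < z 0 ∨ z 0 ≤ -(c : ℤ) + 1) := by
    intro x z h h1
    have := h.col
    omega
  have key2 : ∀ x z : V (n + 2), Dn c x z →
      ((c : ℤ) < x 0 ∨ x 0 ≤ -(c : ℤ) + 1 ∨ Rs c q (2 * (n + 2)) x) →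
      ((c : ℤ) < z 0 ∨ z 0 ≤ -(c : ℤ) + 1 ∨ Rs c q (3 * (n + 2)) z) := by
    intro x z h h1
    rcases h1 with h1 | h1 | h1
    · exact (key x z h (Or.inl h1)).imp id Or.inl
    · exact (key x z h (Or.inr h1)).imp id Or.inl
    · exact Or.inr (Or.inr ((h.rs h1).mono (by omega)))
  refine (step (ρ := ρ + 6) (T := {x | phi c x = ρ + 6 ∧
    ((c : ℤ) < x 0 ∨ x 0 ≤ -(c : ℤ) + 1 ∨ Rs c q (2 * (n + 2)) x)}) M hq (by omega) (by omega)
    (fun x hx => hx.1) (fun x hx z hz h => ?_) (fun x hx z hz h => ?_)).right ?_ ?_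
  · have := hz.phi
    have := hx.1
    simp only [mem_ofPred_eq] at h
    omega
  · have := hz.phi
    have := hx.1
    have := h.1
    omega
  · rintro z (⟨h1, h2⟩ | ⟨x, hx, rfl⟩ | ⟨x, hx, -, h⟩)
    · exact absurd h1 h2
    · have b0 := hx.1.1
      have b1 := M.dn x (by omega) hx.2
      have b2 := b1.phi
      exact ⟨by omega, key2 _ _ b1 hx.1.2⟩
    · have b0 := hx.1
      have b2 := h.phi
      exact ⟨by omega, key2 _ _ h hx.2⟩
  · rintro z (h | h | ⟨x, hx, hW, h⟩)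
    · exact Or.inl h
    · exact Or.inl (le_of_eq h.1.symm)
    · have b0 := hx.1
      have b2 := h.phi
      refine Or.inr ⟨by omega, key _ _ h ?_⟩
      rcases hx.2 with h1 | h1 | h1
      · exact Or.inl h1
      · exact Or.inr h1
      · exact absurd hW (h1.not_W (by omega))

theorem stage4 {r ρ : ℕ} (M : Match n c q ρ₀) (hq : 3 * (n + 2) < q) (h0 : ρ₀ ≤ ρ)
    (hr : r = ρ + 8) (hc : 2 ≤ c) :
    Mvs Adj {x : V (n + 2) | phi c x ≤ r}
      ({x | phi c x = ρ + 5 ∧ ((c : ℤ) < x 0 ∨ x 0 ≤ -(c : ℤ) + 1 ∨ Rs c q (3 * (n + 2)) x)},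
        {x | ρ + 6 ≤ phi c x ∨ (phi c x = ρ + 5 ∧ ((c : ℤ) < x 0 ∨ x 0 ≤ -(c : ℤ) + 1))})
      ({x | phi c x = ρ + 4 ∧ ((c : ℤ) < x 0 ∨ x 0 ≤ -(c : ℤ) + 3)}, {x | ρ + 4 ≤ phi c x}) := by
  have key : ∀ x z : V (n + 2), Dn c x z → ((c : ℤ) < x 0 ∨ x 0 ≤ -(c : ℤ) + 1) →
      ((c : ℤ) < z 0 ∨ z 0 ≤ -(c : ℤ) + 1) := by
    intro x z h h1
    have := h.col
    omega
  set E : Set (V (n + 2)) := {x | phi c x = ρ + 5 ∧ -(c : ℤ) + 2 ≤ x 0 ∧ x 0 ≤ c ∧
    Rs c q (3 * (n + 2)) x} with hEdef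
  have m1 := step (r := r) (ρ := ρ + 5)
    (T := {x | phi c x = ρ + 5 ∧ ((c : ℤ) < x 0 ∨ x 0 ≤ -(c : ℤ) + 1)})
    (A := {x | phi c x = ρ + 5 ∧ ((c : ℤ) < x 0 ∨ x 0 ≤ -(c : ℤ) + 1 ∨ Rs c q (3 * (n + 2)) x)})
    (B := {x | ρ + 6 ≤ phi c x ∨ (phi c x = ρ + 5 ∧ ((c : ℤ) < x 0 ∨ x 0 ≤ -(c : ℤ) + 1))})
    M hq (by omega) (by omega) (fun x hx => hx.1) (fun x hx z hz h => by
      have := hz.phi
      have := hx.1
      simp only [mem_ofPred_eq] at h
      omega) (fun x hx z hz h => by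
      have := hz.phi
      have := hx.1
      have := h.1
      omega)
  refine (m1.trans (lad (ρ := ρ + 5) (lo := -(c : ℤ) + 2) (E := E) M (by omega) (by omega)
    (by omega) (by omega) (fun x hx => ⟨hx.1, hx.2.2.2.not_W hq, hx.2.1, hx.2.2.1⟩)
    (fun x hx k h1 h2 => ?_) (fun x hx => ?_))).right ?_ ?_
  · obtain ⟨a1, a2, a3, a4⟩ := hx
    have b1 : av c (update x 0 k) = av c x := av_update (by omega) a3 (by omega) h2
    exact ⟨by rw [phi, b1]; exact a1, by rw [update_self]; exact h1,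
      by rw [update_self]; exact h2, by rw [Rs, b1]; exact a4⟩
  · obtain ⟨a1, a2, a3, a4⟩ := hx
    have b0 := M.dn x (by omega) (a4.not_W hq)
    have b1 := b0.phi
    have b2 := b0.col.1 (by omega) a3
    refine ⟨?_, ?_, ?_⟩
    · rintro (h | h | ⟨y, hy, -, h⟩)
      · simp only [mem_ofPred_eq] at h
        omega
      · have := h.2
        omega
      · have := h.phi
        have := hy.1
        omega
    · rintro (⟨h, -⟩ | ⟨y, hy, h⟩ | ⟨y, hy, hW, h⟩)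
      · have := h.1
        omega
      · have := key _ _ (M.dn y (by have := hy.1.1; omega) hy.2) hy.1.2
        rw [h] at this
        omega
      · have := key _ _ h hy.2
        omega
    · rintro (h | h | ⟨y, hy, hW, h⟩)
      · simp only [mem_ofPred_eq] at h
        omega
      · have := h.1
        omega
      · have := key _ _ h hy.2
        omega
  · rintro z (⟨⟨h1, h2⟩ | ⟨x, hx, rfl⟩ | ⟨x, hx, hW, h⟩, h3⟩ | h)
    · exfalso
      obtain ⟨a1, a2⟩ := h1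
      by_cases c1 : (c : ℤ) < z 0 ∨ z 0 ≤ -(c : ℤ) + 1
      · exact h2 ⟨a1, c1⟩
      · refine h3 ⟨a1, by omega, by omega, ?_⟩
        rcases a2 with a2 | a2 | a2
        · omega
        · omega
        · exact a2
    · have b0 := hx.1.1
      have b1 := M.dn x (by omega) hx.2
      have b2 := b1.phi
      have b3 := key _ _ b1 hx.1.2
      exact ⟨by omega, by omega⟩
    · have b0 := hx.1
      have b2 := h.phi
      have b3 := key _ _ h hx.2
      exact ⟨by omega, by omega⟩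
    · obtain ⟨a1, a2, a3⟩ := h
      exact ⟨by omega, by omega⟩
  · rintro z ((h | h | ⟨x, hx, -, h⟩) | h)
    · simp only [mem_ofPred_eq] at h ⊢
      omega
    · exact (show ρ + 4 ≤ phi c z by have := h.1; omega)
    · exact (show ρ + 4 ≤ phi c z by have := h.phi; have := hx.1; omega)
    · simp only [mem_ofPred_eq] at h ⊢
      omega

/-- how far a column has been lowered after `j` of the staggered steps -/
def low (c j : ℕ) (k : ℤ) : ℤ := if (c : ℤ) < k then j else min (j : ℤ) (max 0 (-(c : ℤ) + 4 - k))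

theorem stage5 {r ρ : ℕ} (M : Match n c q ρ₀) (hq : 3 * (n + 2) < q) (h0 : ρ₀ ≤ ρ)
    (hr : r = ρ + 8) (hc : 4 ≤ c) (j : ℕ) (hj : j ≤ 3) :
    Mvs Adj {x : V (n + 2) | phi c x ≤ r}
      ({x | (phi c x : ℤ) = ρ + 4 - low c j (x 0) ∧ ((c : ℤ) < x 0 ∨ x 0 ≤ -(c : ℤ) + 3)},
        {x | ρ + 4 - low c j (x 0) ≤ phi c x})
      ({x | (phi c x : ℤ) = ρ + 4 - low c (j + 1) (x 0) ∧ ((c : ℤ) < x 0 ∨ x 0 ≤ -(c : ℤ) + 3)},
        {x | ρ + 4 - low c (j + 1) (x 0) ≤ phi c x}) := by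
  have key : ∀ x z : V (n + 2), Dn c x z → ((c : ℤ) < x 0 ∨ x 0 ≤ -(c : ℤ) + 3 - j) →
      ((c : ℤ) < z 0 ∨ z 0 ≤ -(c : ℤ) + 3 - j) := by
    intro x z h h1
    have := h.col
    omega
  refine (step (ρ := ρ + 4 - j) (T := {x | phi c x = ρ + 4 - j ∧
    ((c : ℤ) < x 0 ∨ x 0 ≤ -(c : ℤ) + 3 - j)}) M hq (by omega) (by omega)
    (fun x hx => hx.1) (fun x hx z hz h => ?_) (fun x hx z hz h => ?_)).right ?_ ?_
  · have := hz.phi
    have := hx.1
    have := key _ _ hz hx.2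
    simp only [mem_ofPred_eq, low] at h
    split_ifs at h <;> omega
  · have := hz.phi
    have := hx.1
    have := key _ _ hz hx.2
    have h' := h.1
    simp only [low] at h'
    split_ifs at h' <;> omega
  · rintro z (⟨h1, h2⟩ | ⟨x, hx, rfl⟩ | ⟨x, hx, -, h⟩)
    · simp only [mem_ofPred_eq, low] at h1 h2 ⊢
      split_ifs at h1 ⊢ <;> omega
    · have b0 := hx.1.1
      have b1 := M.dn x (by omega) hx.2
      have b2 := b1.phi
      have b3 := key _ _ b1 hx.1.2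
      simp only [mem_ofPred_eq, low]
      split_ifs <;> omega
    · have b0 := hx.1
      have b2 := h.phi
      have b3 := key _ _ h hx.2
      simp only [mem_ofPred_eq, low]
      split_ifs <;> omega
  · rintro z (h | h | ⟨x, hx, hW, h⟩)
    · simp only [mem_ofPred_eq, low] at h ⊢
      split_ifs at h ⊢ <;> omega
    · simp only [mem_ofPred_eq, low] at h ⊢
      split_ifs <;> omega
    · have b0 := hx.1
      have b2 := h.phi
      have b3 := key _ _ h hx.2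
      simp only [mem_ofPred_eq, low]
      split_ifs <;> omega

/-- the first half of the scheme: two cones of tokens remain -/
theorem cones {r ρ : ℕ} (M : Match n c q ρ₀) (hq : 3 * (n + 2) < q) (h0 : ρ₀ ≤ ρ)
    (hr : r = ρ + 8) (hc : 4 ≤ c) :
    Mvs Adj {x : V (n + 2) | phi c x ≤ r} ({x | phi c x = ρ + 8}, {x | phi c x = ρ + 8})
      ({x | (x 0 ≤ -(c : ℤ) + 3 ∧ (nu x : ℤ) = ρ + c + x 0) ∨
          ((c : ℤ) < x 0 ∧ (nu x : ℤ) = ρ + c - x 0)},
        {x | (x 0 ≤ -(c : ℤ) + 3 ∧ (ρ : ℤ) + c + x 0 ≤ nu x) ∨ ρ + 4 ≤ nu x ∨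
          ((c : ℤ) < x 0 ∧ (ρ : ℤ) + c - x 0 ≤ nu x)}) := by
  have m := (((stage1 M hq h0 hr).trans (stage2 M hq h0 hr (by omega))).trans
    (stage3 M hq h0 hr)).trans (stage4 M hq h0 hr (by omega))
  have m' := (((stage5 M hq h0 hr hc 0 (by omega)).trans (stage5 M hq h0 hr hc 1 (by omega))).trans
    (stage5 M hq h0 hr hc 2 (by omega))).trans (stage5 M hq h0 hr hc 3 (by omega))
  refine (m.trans (m'.left ?_ ?_)).right ?_ ?_
  · intro x hx
    simp only [mem_ofPred_eq, low] at hx ⊢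
    split_ifs <;> omega
  · intro x hx
    simp only [mem_ofPred_eq, low] at hx ⊢
    split_ifs <;> omega
  · intro x hx
    have := phi_eq (c := c) x
    simp only [mem_ofPred_eq, low] at hx ⊢
    split_ifs at hx <;> omega
  · intro x hx
    have := phi_eq (c := c) x
    simp only [mem_ofPred_eq, low] at hx ⊢
    split_ifs at hx <;> omega

end Caps

end Pool.Agent.H742Z.GP
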