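import Pool.Agent.H742Z.GP.Geo2
import Pool.Agent.H1Z.GP.Cap
import Pool.Agent.H179Z.GP.SW
import Pool.Agent.H955Z.GP.Sound
import Pool.Agent.H199Z.GP.Det

/-!
The capsule: the two fronts are reduced and joined; the surgery property in dimension at least two.
-/

set_option autoImplicit false

namespace Pool.Agent.H742Z.GP

open Set Function

namespace Caps

variable {n c ρ : ℕ}

theorem stage9 (hc : 4 ≤ c) :
    Mvs Adj {x : V (n + 2) | phi c x ≤ ρ + 8}
      ({x | (x 0 ≤ -(c : ℤ) + 3 ∧ (nu x : ℤ) = ρ + c + x 0) ∨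
          ((c : ℤ) < x 0 ∧ (nu x : ℤ) = ρ + c - x 0)},
        {x | (x 0 ≤ -(c : ℤ) + 3 ∧ (ρ : ℤ) + c + x 0 ≤ nu x) ∨ ρ + 4 ≤ nu x ∨
          ((c : ℤ) < x 0 ∧ (ρ : ℤ) + c - x 0 ≤ nu x)})
      ({x | (x 0 = -(c : ℤ) + 4 ∨ x 0 = c) ∧ nu x ≤ ρ + 3},
        {x | x 0 ≤ -(c : ℤ) + 3 ∨ ρ + 4 ≤ nu x ∨ (c : ℤ) < x 0}) := by
  have hfin : {x : V (n + 2) | (x 0 ≤ -(c : ℤ) + 3 ∧ (nu x : ℤ) = ρ + c + x 0) ∨
      ((c : ℤ) < x 0 ∧ (nu x : ℤ) = ρ + c - x 0)}.Finite := by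
    refine (finite_phi (c := c) (ρ + 8)).subset fun x hx => ?_
    have := phi_eq (c := c) x
    simp only [mem_ofPred_eq] at hx ⊢
    omega
  refine (sweep hfin (fun x t => update x 0 (if x 0 ≤ 0 then x 0 + t else x 0 - t))
    (fun x => if x 0 ≤ 0 then (-(c : ℤ) + 4 - x 0).toNat else (x 0 - c).toNat)
    (fun x _ t _ => adj_col x (by split_ifs <;> push_cast <;> omega))
    (fun x hx y hy s hs t ht h => ?_) (fun x hx t h1 ht => ?_)).right ?_ ?_
  · have h1 := congrFun h 0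
    have h2 := congrArg nu h
    simp only [update_self, nu_update] at h1 h2
    simp only [mem_ofPred_eq] at hx hy
    have h3 : x 0 = y 0 ∧ s = t := by
      split_ifs at h1 hs ht <;> omega
    refine ⟨funext fun i => ?_, h3.2⟩
    by_cases hi : i = 0
    · rw [hi, h3.1]
    · simpa only [update_of_ne hi] using congrFun h i
  · simp only [mem_ofPred_eq, phi_eq, update_self, nu_update] at hx ⊢
    split_ifs at ht ⊢ <;> omega
  · rintro z (⟨h1, h2⟩ | ⟨x, hx, rfl⟩)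
    · exact absurd ⟨z, h1, by simp⟩ h2
    · simp only [mem_ofPred_eq, update_self, nu_update] at hx ⊢
      split_ifs <;> omega
  · rintro z (h | ⟨x, hx, t, ht, rfl⟩)
    · simp only [mem_ofPred_eq] at h ⊢
      omega
    · simp only [mem_ofPred_eq, update_self, nu_update] at hx ⊢
      split_ifs at ht ⊢ <;> omega

/-- the site in column `k` of row `y` -/
def pt (k : ℤ) (y : V (n + 1)) : V (n + 2) := Fin.cons k y

/-- the norm of a row -/
def nrm (y : V (n + 1)) : ℕ := ∑ i, (y i).natAbs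

theorem pt_zero (k : ℤ) (y : V (n + 1)) : pt k y 0 = k := rfl

theorem pt_one (k : ℤ) (y : V (n + 1)) : pt k y 1 = y 0 := rfl

theorem nu_pt (k : ℤ) (y : V (n + 1)) : nu (pt k y) = nrm y := by
  simp [nu, pt, nrm]

theorem pt_tail (x : V (n + 2)) : pt (x 0) (Fin.tail x) = x := Fin.cons_self_tail x

theorem pt_inj {a b : ℤ} {y z : V (n + 1)} (h : pt a y = pt b z) : a = b ∧ y = z :=
  ⟨congrFun h 0, funext fun i => by simpa [pt] using congrFun h i.succ⟩

theorem adj_pt_col (y : V (n + 1)) {a b : ℤ} (h : a = b + 1 ∨ b = a + 1) :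
    Adj (pt a y) (pt b y) := by
  rcases h with h | h <;> subst h <;> simp [Adj, pt, Fin.sum_univ_succ]

theorem adj_pt_row (k : ℤ) {y z : V (n + 1)} (h : Adj y z) : Adj (pt k y) (pt k z) := by
  simpa [Adj, pt, Fin.sum_univ_succ (n := n + 1)] using h

theorem adj_single (a b : ℤ) (h : a = b + 1 ∨ b = a + 1) :
    Adj (Pi.single 0 a : V (n + 1)) (Pi.single 0 b) :=
  adj_update 0 0 (by rcases h with h | h <;> subst h <;> simp)

theorem nrm_single (a : ℤ) : nrm (Pi.single 0 a : V (n + 1)) = a.natAbs := by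
  simp [nrm, Fin.sum_univ_succ]

theorem exists_par (y : V (n + 1)) (hy : y ≠ 0) : ∃ z, Adj y z ∧ nrm z < nrm y := by
  obtain ⟨i, hi⟩ := Function.ne_iff.1 hy
  simp only [Pi.zero_apply] at hi
  have h1 : (1 ≤ y i ∧ (y i).sign = 1) ∨ (y i ≤ -1 ∧ (y i).sign = -1) := by
    rcases lt_trichotomy (y i) 0 with h0 | h0 | h0
    · exact Or.inr ⟨by omega, Int.sign_eq_neg_one_of_neg h0⟩
    · exact absurd h0 hi
    · exact Or.inl ⟨by omega, Int.sign_eq_one_of_pos h0⟩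
  refine ⟨update y i (y i - (y i).sign), ?_, ?_⟩
  · have := adj_update y i (a := y i) (b := y i - (y i).sign) (by
      rcases h1 with ⟨_, h2⟩ | ⟨_, h2⟩ <;> rw [h2] <;> simp)
    rwa [update_eq_self] at this
  · refine Finset.sum_lt_sum (fun k _ => ?_) ⟨i, Finset.mem_univ _, ?_⟩
    · by_cases hk : k = i
      · subst hk
        rw [update_self]
        omega
      · rw [update_of_ne hk]
    · rw [update_self]
      omega

/-- the footprint of the fronts -/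
noncomputable def foot (n ρ : ℕ) : Finset (V (n + 1)) :=
  (ball 0 (ρ + 3)).filter fun y => nrm y ≤ ρ + 3

theorem mem_foot {y : V (n + 1)} : y ∈ foot n ρ ↔ nrm y ≤ ρ + 3 := by
  rw [foot, Finset.mem_filter, mem_ball]
  refine ⟨fun h => h.2, fun h => ⟨fun i => ?_, h⟩⟩
  have h1 : (y i).natAbs ≤ nrm y :=
    Finset.single_le_sum (f := fun i => (y i).natAbs) (fun _ _ => Nat.zero_le _)
      (Finset.mem_univ i)
  simp only [Pi.zero_apply, sub_zero]
  rw [abs_le]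
  push_cast
  omega

theorem capc (col : ℕ → ℤ) (hcol : ∀ m, col m = col (m + 1) + 1 ∨ col (m + 1) = col m + 1)
    (hinj : ∀ m k, col m = col k → m = k) (H : ℕ) (hH : (foot n ρ).card < H)
    {A B : Set (V (n + 2))} (hQ : ∀ m ≤ H, -(c : ℤ) ≤ col m ∧ col m ≤ c)
    (hB : ∀ x ∈ B, nu x ≤ ρ + 3 → ∀ m ≤ H, x 0 ≠ col m)
    (hA : ∀ x ∈ A, ∀ m ≤ H, 1 ≤ m → x 0 ≠ col m) :
    Mvs Adj {x : V (n + 2) | phi c x ≤ ρ + 8} (A, B)
      ((A \ {x | x 0 = col 0 ∧ nu x ≤ ρ + 3}) ∪ {pt (col H) 0, pt (col H) (Pi.single 0 1)},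
        B ∪ {x | ∃ m < H, x 0 = col m ∧ (m ≤ (foot n ρ).card ∨ x 1 ≤ 1)}) := by
  choose! par hpar1 hpar2 using exists_par (n := n)
  have hadj : Adj (0 : V (n + 1)) (Pi.single 0 1) := by
    simpa using adj_single (n := n) 0 1 (Or.inr (by simp))
  refine (cap (foot n ρ) 0 (Pi.single 0 1) par nrm (fun h => adj_irrefl _ (h ▸ hadj))
    (mem_foot.2 (by simp [nrm])) (mem_foot.2 (by rw [nrm_single]; simp))
    (fun y hy h0 _ => ⟨mem_foot.2 ((hpar2 y h0).le.trans (mem_foot.1 hy)), hpar2 y h0⟩)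
    (fun m y => pt (col m) y) H hH (fun m _ y _ => adj_pt_col y (hcol m))
    (fun m _ y _ h0 _ => ⟨adj_pt_row _ (hpar1 y h0), adj_pt_row _ (hpar1 y h0).symm⟩)
    (fun m _ => ⟨adj_pt_row _ hadj, adj_pt_row _ hadj.symm⟩)
    (fun m _ k _ y _ z _ h => ⟨hinj _ _ (pt_inj h).1, (pt_inj h).2⟩)
    (fun m hm y hy => ⟨?_, fun h => hB _ h ?_ m hm rfl⟩)
    (fun m hm y _ h1 h => hA _ h m hm h1 rfl)).right ?_ ?_
  · have h1 := mem_foot.1 hy
    have h2 := hQ m hm
    simp only [mem_ofPred_eq, phi_eq, nu_pt, pt_zero]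
    omega
  · rw [nu_pt]
    exact mem_foot.1 hy
  · refine union_subset_union_left _ fun x hx => ⟨hx.1, fun h => hx.2 ⟨Fin.tail x, ?_, ?_⟩⟩
    · rw [mem_foot, ← nu_pt (x 0), pt_tail]
      exact h.2
    · rw [← h.1, pt_tail]
  · refine union_subset_union_right _ ?_
    rintro x ⟨m, hm, y, -, h, rfl⟩
    refine ⟨m, hm, rfl, ?_⟩
    rcases h with h | rfl | rfl
    · exact Or.inl h
    · exact Or.inr (by simp [pt_one])
    · exact Or.inr (by simp [pt_one])

theorem scheme {q ρ₀ : ℕ} (M : Match n c q ρ₀) (hq : 3 * (n + 2) < q) (h0 : ρ₀ ≤ ρ)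
    (hc : (foot n ρ).card + 5 ≤ c) :
    ∃ U : Set (V (n + 2)), Good Adj {x : V (n + 2) | phi c x ≤ ρ + 8} U ∧
      ∀ x ∈ U, x 0 ≤ -(c : ℤ) + 4 + (foot n ρ).card ∨ ρ + 4 ≤ nu x ∨
        (c : ℤ) - (foot n ρ).card ≤ x 0 ∨ x 1 ≤ 1 := by
  obtain ⟨K, hK⟩ : ∃ K : ℤ, K = c - (foot n ρ).card - 4 := ⟨_, rfl⟩
  obtain ⟨H, hH⟩ : ∃ H : ℕ, -(c : ℤ) + 4 + H = K := ⟨(K + c - 4).toNat, by omega⟩
  have m1 := (cones M hq h0 rfl (by omega)).trans (stage9 (by omega))
  have m2 := (m1.trans (capc (fun m => -(c : ℤ) + 4 + m) (fun m => by push_cast; omega)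
    (fun m k h => by omega) H (by omega) (fun m hm => by omega)
    (fun x hx h m hm => by simp only [mem_ofPred_eq] at hx; omega)
    (fun x hx m hm h => by simp only [mem_ofPred_eq] at hx; omega))).right
    (A' := {x | x 0 = (c : ℤ) ∧ nu x ≤ ρ + 3} ∪ {pt K 0, pt K (Pi.single 0 1)})
    (B' := {x | x 0 ≤ -(c : ℤ) + 4 + (foot n ρ).card ∨ ρ + 4 ≤ nu x ∨ (c : ℤ) < x 0 ∨
      (x 0 < K ∧ x 1 ≤ 1)})
    (by
      rw [hH]
      refine union_subset_union_left _ fun x hx => ?_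
      simp only [mem_sdiff, mem_ofPred_eq] at hx ⊢
      omega)
    (by
      rintro x (hx | ⟨m, hm, h1, h2⟩)
      · simp only [mem_ofPred_eq] at hx ⊢
        omega
      · simp only [mem_ofPred_eq]
        omega)
  have m3 := (m2.trans (capc (fun m => (c : ℤ) - m) (fun m => by push_cast; omega)
    (fun m k h => by omega) ((foot n ρ).card + 1) (by omega) (fun m hm => by omega)
    (fun x hx h m hm => by simp only [mem_ofPred_eq] at hx; omega)
    (fun x hx m hm h => by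
      rcases hx with hx | rfl | rfl
      · have := hx.1
        omega
      · rw [pt_zero]
        omega
      · rw [pt_zero]
        omega))).right
    (A' := {pt (K + 0) (Pi.single 0 0), pt (K + 0) (Pi.single 0 1), pt (K + 3) (Pi.single 0 0),
      pt (K + 3) (Pi.single 0 1)})
    (B' := {x | x 0 ≤ -(c : ℤ) + 4 + (foot n ρ).card ∨ ρ + 4 ≤ nu x ∨
      (c : ℤ) - (foot n ρ).card ≤ x 0 ∨ (x 0 < K ∧ x 1 ≤ 1)})
    (by
      rw [show (c : ℤ) - ((foot n ρ).card + 1 : ℕ) = K + 3 by omega, add_zero, Pi.single_zero]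
      rintro x (⟨hx | hx | hx, h⟩ | hx | hx)
      · exact absurd ⟨by simpa using hx.1, hx.2⟩ h
      · exact Or.inl hx
      · exact Or.inr (Or.inl hx)
      · exact Or.inr (Or.inr (Or.inl hx))
      · exact Or.inr (Or.inr (Or.inr hx)))
    (by
      rintro x (hx | ⟨m, hm, h1, h2⟩)
      · simp only [mem_ofPred_eq] at hx ⊢
        omega
      · simp only [mem_ofPred_eq]
        omega)
  have m4 := m3.trans (merge (fun a b => pt (K + a) (Pi.single 0 b))
    (fun a b a' b' h => ⟨by have := (pt_inj h).1; omega, by simpa using congrFun (pt_inj h).2 0⟩)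
    (fun a b => ⟨adj_pt_col _ (by omega), adj_pt_col _ (by omega)⟩)
    (fun a b => ⟨adj_pt_row _ (adj_single _ _ (by omega)),
      adj_pt_row _ (adj_single _ _ (by omega))⟩)
    (fun a b h1 h2 h3 h4 => by
      simp only [mem_ofPred_eq, phi_eq, nu_pt, pt_zero, nrm_single]
      omega) Subset.rfl)
  refine ⟨_, sound Adj (fun _ _ h => h.symm) adj_irrefl _ _ _ _ (fun z hz y hy h => ?_) m4 _ _
    Subset.rfl (adj_pt_col _ (by omega)), ?_⟩
  · have := phi_adj (c := c) h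
    simp only [mem_ofPred_eq] at hz hy ⊢
    omega
  · rintro x ((rfl | rfl) | hx | ⟨a, b, h1, h2, h3, h4, rfl⟩)
    · simp [pt_one]
    · simp [pt_one]
    · simp only [mem_ofPred_eq] at hx
      omega
    · simp [pt_one, h4]

end Caps

open Caps in
theorem capsule (n S₀ : ℕ) : ∃ (S : ℕ) (Q U : Set (V (n + 2))), Good Adj Q U ∧
    (↑(ball (0 : V (n + 2)) S₀) ⊆ Q) ∧ Q ⊆ ↑(ball (0 : V (n + 2)) S) ∧
    ∀ u ∈ ball (0 : V (n + 2)) S₀, u ∉ U := by
  obtain ⟨q, ρ₀, hq, hSW⟩ := sw (n + 2) (by omega)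
  obtain ⟨ρ, hρ⟩ : ∃ ρ, ρ = ρ₀ + (n + 1) * (2 * S₀ + 2) := ⟨_, rfl⟩
  obtain ⟨c, hc⟩ : ∃ c, c = (foot n ρ).card + S₀ + 5 := ⟨_, rfl⟩
  obtain ⟨M⟩ := exists_match hSW c
  obtain ⟨U, hU, hU'⟩ := scheme (ρ := ρ) M hq (by omega) (by omega)
  set z : V (n + 2) := Pi.single 1 (-((S₀ : ℤ) + 2)) with hz
  have hz0 : z 0 = 0 := by simp [hz]
  have hz1 : z 1 = -((S₀ : ℤ) + 2) := by simp [hz]
  have hzi : ∀ i, -((S₀ : ℤ) + 2) ≤ z i ∧ z i ≤ 0 := by
    intro i
    by_cases hi : i = 1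
    · rw [hi, hz1]; omega
    · rw [hz, Pi.single_eq_of_ne hi]; omega
  have hball : ∀ u ∈ ball (0 : V (n + 2)) S₀, ∀ i, -(S₀ : ℤ) ≤ u i ∧ u i ≤ S₀ := by
    intro u hu i
    simpa [abs_le] using mem_ball.1 hu i
  have hnu : ∀ u ∈ ball (0 : V (n + 2)) S₀, nu (u + -z) ≤ ρ := by
    intro u hu
    have : nu (u + -z) ≤ ∑ _i : Fin (n + 1), (2 * S₀ + 2) := by
      refine Finset.sum_le_sum fun i _ => ?_
      have h1 := hball u hu i.succ
      have h2 := hzi i.succ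
      simp only [Pi.add_apply, Pi.neg_apply]
      omega
    simp only [Finset.sum_const, Finset.card_univ, Fintype.card_fin, smul_eq_mul] at this
    omega
  refine ⟨c + (ρ + 8) + S₀ + 2, _, _, Det.good_shift hU z, fun u hu => ?_, fun u hu => ?_,
    fun u hu h => ?_⟩
  · have h1 := hnu u hu
    have h2 := hball u hu 0
    simp only [mem_ofPred_eq, phi_eq, Pi.add_apply, Pi.neg_apply, hz0]
    omega
  · rw [Finset.mem_coe, mem_ball]
    intro i
    have h1 : av c (u + -z) i ≤ phi c (u + -z) :=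
      Finset.single_le_sum (f := av c (u + -z)) (fun _ _ => Nat.zero_le _) (Finset.mem_univ i)
    have h2 : phi c (u + -z) ≤ ρ + 8 := hu
    have h3 := hzi i
    unfold av at h1
    simp only [Pi.zero_apply, sub_zero]
    rw [abs_le]
    simp only [Pi.add_apply, Pi.neg_apply] at h1
    split_ifs at h1 with h0
    · subst h0; push_cast; omega
    · push_cast; omega
  · have h1 := hU' _ h
    have h2 := hnu u hu
    have h3 := hball u hu 0
    have h4 := hball u hu 1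
    simp only [Pi.add_apply, Pi.neg_apply, hz0, hz1] at h1
    omega

theorem exists_surg {d : ℕ} (hd : 2 ≤ d) (j : ℕ) : ∃ S, Surg d j S := by
  obtain ⟨n, rfl⟩ : ∃ n, d = n + 2 := ⟨d - 2, by omega⟩
  exact surg_of_capsule (capsule n) j

end Pool.Agent.H742Z.GP
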