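import Pool.Agent.H742Z.GP.Defs2

/-!
Derived moves of the relinking scheme.
-/

set_option autoImplicit false

namespace Pool.Agent.H742Z.GP

open Set

variable {α : Type} {R : α → α → Prop} {Q : Set α}

theorem Mvs.weak {A B A' B' : Set α} (hA : A ⊆ A') (hB : B ⊆ B') : Mvs R Q (A, B) (A', B') :=
  Relation.ReflTransGen.single (Mv.weak hA hB)

theorem Mvs.trans {s t u : Set α × Set α} (h₁ : Mvs R Q s t) (h₂ : Mvs R Q t u) : Mvs R Q s u :=
  Relation.ReflTransGen.trans h₁ h₂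

theorem Mvs.right {s : Set α × Set α} {A B A' B' : Set α} (h : Mvs R Q s (A, B)) (hA : A ⊆ A')
    (hB : B ⊆ B') : Mvs R Q s (A', B') :=
  h.trans (Mvs.weak hA hB)

theorem Mvs.left {s : Set α × Set α} {A B A' B' : Set α} (h : Mvs R Q (A, B) s) (hA : A' ⊆ A)
    (hB : B' ⊆ B) : Mvs R Q (A', B') s :=
  (Mvs.weak hA hB).trans h

theorem Mvs.move {A B : Set α} {x z : α} (h : R x z) (hQ : z ∈ Q) (hA : z ∉ A) (hB : z ∉ B) :
    Mvs R Q (A, B) ((A \ {x}) ∪ {z}, B ∪ {x}) :=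
  Relation.ReflTransGen.single (Mv.move h hQ hA hB)

theorem Mvs.gad {A B : Set α} {x z₁ z₂ : α} (h₁ : R x z₁) (h₂ : R x z₂) (hne : z₁ ≠ z₂)
    (hQ₁ : z₁ ∈ Q) (hQ₂ : z₂ ∈ Q) (hB₁ : z₁ ∉ B) (hB₂ : z₂ ∉ B) :
    Mvs R Q (A, B) ((A \ {x}) ∪ {z₁, z₂}, B ∪ {x, z₁, z₂}) :=
  Relation.ReflTransGen.single (Mv.gad h₁ h₂ hne hQ₁ hQ₂ hB₁ hB₂)

/-- many simple moves at once -/
theorem batch_move {I : Type} {T : Set I} (hT : T.Finite) (s f : I → α) {A B : Set α}
    (hf : InjOn f T) (hR : ∀ i ∈ T, R (s i) (f i)) (hQ : ∀ i ∈ T, f i ∈ Q)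
    (hA : ∀ i ∈ T, f i ∉ A) (hB : ∀ i ∈ T, f i ∉ B) (hs : ∀ i ∈ T, ∀ k ∈ T, f i ≠ s k) :
    Mvs R Q (A, B) ((A \ s '' T) ∪ f '' T, B ∪ s '' T) := by
  induction T, hT using Set.Finite.induction_on with
  | empty => exact Mvs.weak (by simp) (by simp)
  | @insert a T ha hT ih =>
    have h1 := ih (hf.mono (subset_insert _ _)) (fun i hi => hR i (mem_insert_of_mem _ hi))
      (fun i hi => hQ i (mem_insert_of_mem _ hi)) (fun i hi => hA i (mem_insert_of_mem _ hi))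
      (fun i hi => hB i (mem_insert_of_mem _ hi))
      (fun i hi k hk => hs i (mem_insert_of_mem _ hi) k (mem_insert_of_mem _ hk))
    have ha' : a ∈ insert a T := mem_insert _ _
    refine (h1.trans (Mvs.move (hR a ha') (hQ a ha') ?_ ?_)).right ?_ ?_
    · rintro (h | ⟨i, hi, h⟩)
      · exact hA a ha' h.1
      · exact ha (hf (mem_insert_of_mem _ hi) ha' h ▸ hi)
    · rintro (h | ⟨i, hi, h⟩)
      · exact hB a ha' h
      · exact hs a ha' i (mem_insert_of_mem _ hi) h.symm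
    · rw [image_insert_eq, image_insert_eq]
      intro x
      simp only [mem_union, mem_sdiff, mem_singleton_iff, mem_insert_iff]
      tauto
    · rw [image_insert_eq]
      intro x
      simp only [mem_union, mem_singleton_iff, mem_insert_iff]
      tauto

/-- many gadgets at once -/
theorem batch_gad {I : Type} {T : Set I} (hT : T.Finite) (s g₁ g₂ : I → α) {A B : Set α}
    (h₁ : InjOn g₁ T) (h₂ : InjOn g₂ T) (h₁₂ : ∀ i ∈ T, ∀ k ∈ T, g₁ i ≠ g₂ k)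
    (hR : ∀ i ∈ T, R (s i) (g₁ i) ∧ R (s i) (g₂ i)) (hQ : ∀ i ∈ T, g₁ i ∈ Q ∧ g₂ i ∈ Q)
    (hB : ∀ i ∈ T, g₁ i ∉ B ∧ g₂ i ∉ B) (hs : ∀ i ∈ T, ∀ k ∈ T, g₁ i ≠ s k ∧ g₂ i ≠ s k) :
    Mvs R Q (A, B) ((A \ s '' T) ∪ (g₁ '' T ∪ g₂ '' T), B ∪ (s '' T ∪ (g₁ '' T ∪ g₂ '' T))) := by
  induction T, hT using Set.Finite.induction_on with
  | empty => exact Mvs.weak (by simp) (by simp)
  | @insert a T ha hT ih =>
    have h1 := ih (h₁.mono (subset_insert _ _)) (h₂.mono (subset_insert _ _))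
      (fun i hi k hk => h₁₂ i (mem_insert_of_mem _ hi) k (mem_insert_of_mem _ hk))
      (fun i hi => hR i (mem_insert_of_mem _ hi))
      (fun i hi => hQ i (mem_insert_of_mem _ hi))
      (fun i hi => hB i (mem_insert_of_mem _ hi))
      (fun i hi k hk => hs i (mem_insert_of_mem _ hi) k (mem_insert_of_mem _ hk))
    have ha' : a ∈ insert a T := mem_insert _ _
    refine (h1.trans (Mvs.gad (hR a ha').1 (hR a ha').2 (h₁₂ a ha' a ha') (hQ a ha').1
      (hQ a ha').2 ?_ ?_)).right ?_ ?_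
    · rintro (h | ⟨i, hi, h⟩ | ⟨i, hi, h⟩ | ⟨i, hi, h⟩)
      · exact (hB a ha').1 h
      · exact (hs a ha' i (mem_insert_of_mem _ hi)).1 h.symm
      · exact ha (h₁ (mem_insert_of_mem _ hi) ha' h ▸ hi)
      · exact h₁₂ a ha' i (mem_insert_of_mem _ hi) h.symm
    · rintro (h | ⟨i, hi, h⟩ | ⟨i, hi, h⟩ | ⟨i, hi, h⟩)
      · exact (hB a ha').2 h
      · exact (hs a ha' i (mem_insert_of_mem _ hi)).2 h.symm
      · exact h₁₂ i (mem_insert_of_mem _ hi) a ha' h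
      · exact ha (h₂ (mem_insert_of_mem _ hi) ha' h ▸ hi)
    · rw [image_insert_eq, image_insert_eq, image_insert_eq]
      intro x
      simp only [mem_union, mem_sdiff, mem_singleton_iff, mem_insert_iff]
      tauto
    · rw [image_insert_eq, image_insert_eq, image_insert_eq]
      intro x
      simp only [mem_union, mem_singleton_iff, mem_insert_iff]
      tauto

/-- transport of a sequence of moves along an embedding -/
theorem frame {β : Type} {R' : β → β → Prop} {Q' : Set β} (j : β → α) (hj : Function.Injective j)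
    (hR : ∀ x y, R' x y → R (j x) (j y)) (hQ : ∀ z ∈ Q', j z ∈ Q) {A₀ B₀ : Set α}
    (hA : ∀ z ∈ Q', j z ∉ A₀) (hB : ∀ z ∈ Q', j z ∉ B₀) {s t : Set β × Set β}
    (h : Mvs R' Q' s t) :
    Mvs R Q (A₀ ∪ j '' s.1, B₀ ∪ j '' s.2) (A₀ ∪ j '' t.1, B₀ ∪ j '' t.2) := by
  induction h with
  | refl => exact Relation.ReflTransGen.refl
  | tail _ h2 ih =>
    refine ih.trans ?_
    cases h2 with
    | weak h1 h2 =>
      exact Mvs.weak (union_subset_union_right _ (image_mono h1))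
        (union_subset_union_right _ (image_mono h2))
    | @move A B x z h1 h2 h3 h4 =>
      refine (Mvs.move (hR _ _ h1) (hQ _ h2) ?_ ?_).right ?_ ?_
      · rintro (h | ⟨y, hy, h⟩)
        · exact hA _ h2 h
        · exact h3 (hj h ▸ hy)
      · rintro (h | ⟨y, hy, h⟩)
        · exact hB _ h2 h
        · exact h4 (hj h ▸ hy)
      · rintro u (⟨h | ⟨y, hy, rfl⟩, hu⟩ | rfl)
        · exact Or.inl h
        · exact Or.inr ⟨y, Or.inl ⟨hy, fun h => hu (by rw [mem_singleton_iff.1 h]; rfl)⟩, rfl⟩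
        · exact Or.inr ⟨z, Or.inr rfl, rfl⟩
      · rintro u ((h | ⟨y, hy, rfl⟩) | rfl)
        · exact Or.inl h
        · exact Or.inr ⟨y, Or.inl hy, rfl⟩
        · exact Or.inr ⟨x, Or.inr rfl, rfl⟩
    | @gad A B x z₁ z₂ h1 h2 h3 h4 h5 h6 h7 =>
      refine (Mvs.gad (hR _ _ h1) (hR _ _ h2) (fun h => h3 (hj h)) (hQ _ h4) (hQ _ h5)
        ?_ ?_).right ?_ ?_
      · rintro (h | ⟨y, hy, h⟩)
        · exact hB _ h4 h
        · exact h6 (hj h ▸ hy)
      · rintro (h | ⟨y, hy, h⟩)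
        · exact hB _ h5 h
        · exact h7 (hj h ▸ hy)
      · rintro u (⟨h | ⟨y, hy, rfl⟩, hu⟩ | rfl | rfl)
        · exact Or.inl h
        · exact Or.inr ⟨y, Or.inl ⟨hy, fun h => hu (by rw [mem_singleton_iff.1 h]; rfl)⟩, rfl⟩
        · exact Or.inr ⟨z₁, Or.inr (Or.inl rfl), rfl⟩
        · exact Or.inr ⟨z₂, Or.inr (Or.inr rfl), rfl⟩
      · rintro u ((h | ⟨y, hy, rfl⟩) | rfl | rfl | rfl)
        · exact Or.inl h
        · exact Or.inr ⟨y, Or.inl hy, rfl⟩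
        · exact Or.inr ⟨x, Or.inr (Or.inl rfl), rfl⟩
        · exact Or.inr ⟨z₁, Or.inr (Or.inr (Or.inl rfl)), rfl⟩
        · exact Or.inr ⟨z₂, Or.inr (Or.inr (Or.inr rfl)), rfl⟩

end Pool.Agent.H742Z.GP
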